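import Pool.Agent.H836R3.Ill

/-!
# Feasibility of conic systems and homogenisation
-/

open Set Matrix MeasureTheory
open scoped ENNReal

namespace Pool.Agent.H836R3

set_option linter.unusedSectionVars false

variable {Q R : Type} [Fintype Q] [Fintype R]

/-- Feasibility of `A x - b ∈ K₁`, `x ∈ K₂`. -/
def Feas (K₁ : Set (R → ℝ)) (K₂ : Set (Q → ℝ)) (A : Matrix R Q ℝ) (b : R → ℝ) : Prop :=
  ∃ x ∈ K₂, A.mulVec x - b ∈ K₁

/-- The homogenised matrix `[A, -b]`. -/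
def homog (A : Matrix R Q ℝ) (b : R → ℝ) : Matrix R (Option Q) ℝ :=
  Matrix.of fun r o => match o with
    | none => - b r
    | some q => A r q

/-- The cone `K₂ × [0, ∞)`. -/
def coneUp (K₂ : Set (Q → ℝ)) : Set (Option Q → ℝ) :=
  {z | (fun q => z (some q)) ∈ K₂ ∧ 0 ≤ z none}

lemma isClosedConvexCone_coneUp {K₂ : Set (Q → ℝ)} (h : IsClosedConvexCone K₂) :
    IsClosedConvexCone (coneUp K₂) where
  closed := by
    have h1 : IsClosed ((fun (z : Option Q → ℝ) (q : Q) => z (some q)) ⁻¹' K₂) :=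
      h.closed.preimage (by fun_prop)
    have h2 : IsClosed {z : Option Q → ℝ | 0 ≤ z none} := isClosed_le (by fun_prop) (by fun_prop)
    exact h1.inter h2
  convex := by
    rintro x ⟨hx1, hx2⟩ y ⟨hy1, hy2⟩ a b ha hb hab
    refine ⟨h.convex hx1 hy1 ha hb hab, ?_⟩
    simp only [Pi.add_apply, Pi.smul_apply, smul_eq_mul]
    positivity
  nonempty := ⟨0, h.zero_mem, le_rfl⟩
  smul_mem := by
    rintro t ht x ⟨hx1, hx2⟩
    refine ⟨h.smul_mem t ht _ hx1, ?_⟩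
    simp only [Pi.smul_apply, smul_eq_mul]
    positivity

lemma homog_mulVec (A : Matrix R Q ℝ) (b : R → ℝ) (z : Option Q → ℝ) :
    (homog A b).mulVec z = A.mulVec (fun q => z (some q)) - z none • b := by
  ext r
  simp only [mulVec, dotProduct, homog, Matrix.of_apply, Fintype.sum_option, Pi.sub_apply,
    Pi.smul_apply, smul_eq_mul]
  ring

lemma feas_homog {K₁ : Set (R → ℝ)} {K₂ : Set (Q → ℝ)} {A : Matrix R Q ℝ} {b : R → ℝ}
    (h2 : IsClosedConvexCone K₂) (h : Feas K₁ K₂ A b) :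
    ∃ z ∈ coneUp K₂, z ⬝ᵥ z = 1 ∧ ∀ y ∈ dualCone K₁, 0 ≤ y ⬝ᵥ (homog A b).mulVec z := by
  obtain ⟨x, hx, hx1⟩ := h
  let z : Option Q → ℝ := fun o => match o with
    | none => 1
    | some q => x q
  have hz : z ∈ coneUp K₂ := ⟨hx, zero_le_one⟩
  have hz0 : z ≠ 0 := by
    intro h0
    have := congrFun h0 none
    simp [z] at this
  obtain ⟨t, ht, ht1⟩ := exists_unit hz0
  refine ⟨t • z, (isClosedConvexCone_coneUp h2).smul_mem t ht.le z hz, ht1, fun y hy => ?_⟩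
  rw [mulVec_smul, dotProduct_smul, smul_eq_mul, homog_mulVec]
  have h3 : A.mulVec (fun q => z (some q)) - z none • b = A.mulVec x - b := by
    simp [z]
  rw [h3]
  have := hy _ hx1
  positivity

lemma infeas_homog {K₁ : Set (R → ℝ)} {K₂ : Set (Q → ℝ)} {A : Matrix R Q ℝ} {b : R → ℝ}
    (h1 : IsClosedConvexCone K₁) (h2 : IsClosedConvexCone K₂) (h : ¬ Feas K₁ K₂ A b) :
    ∃ y ∈ dualCone K₁, y ⬝ᵥ y = 1 ∧ ∀ z ∈ coneUp K₂, y ⬝ᵥ (homog A b).mulVec z ≤ 0 := by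
  let W : Set (R → ℝ) := {w | ∃ c ∈ K₁, ∃ x ∈ K₂, w = c - (A.mulVec x - b)}
  have hW : Convex ℝ W := by
    rintro w1 ⟨c1, hc1, x1, hx1, rfl⟩ w2 ⟨c2, hc2, x2, hx2, rfl⟩ s t hs ht hst
    refine ⟨s • c1 + t • c2, h1.convex hc1 hc2 hs ht hst, s • x1 + t • x2,
      h2.convex hx1 hx2 hs ht hst, ?_⟩
    rw [mulVec_add, mulVec_smul, mulVec_smul]
    have hb : b = s • b + t • b := by rw [← add_smul, hst, one_smul]
    conv_rhs => rw [hb]
    simp only [smul_sub]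
    abel
  have hne : W.Nonempty := ⟨_, 0, h1.zero_mem, 0, h2.zero_mem, rfl⟩
  have h0 : (0 : R → ℝ) ∉ W := by
    rintro ⟨c, hc, x, hx, he⟩
    apply h
    refine ⟨x, hx, ?_⟩
    rw [← sub_eq_zero.1 he.symm]
    exact hc
  obtain ⟨y, hy1, hyW⟩ := sep_weak hW hne h0
  -- the functional is bounded below on cones, hence nonnegative
  have hbd : ∀ u v : ℝ, (∀ s : ℝ, 0 ≤ s → 0 ≤ s * u + v) → 0 ≤ u := by
    intro u v huv
    by_contra hneg
    push Not at hneg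
    have h3 := huv ((|v| + 1) / (-u)) (div_nonneg (by positivity) (by linarith))
    have h4 : (|v| + 1) / (-u) * u = -(|v| + 1) := by
      have := hneg.ne
      field_simp
    rw [h4] at h3
    have := le_abs_self v
    linarith
  have hyK : y ∈ dualCone K₁ := by
    intro c hc
    apply hbd _ (y ⬝ᵥ b)
    intro s hs
    have := hyW _ ⟨s • c, h1.smul_mem s hs c hc, 0, h2.zero_mem, rfl⟩
    rw [mulVec_zero, zero_sub, sub_neg_eq_add, dotProduct_add, dotProduct_smul, smul_eq_mul] at this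
    exact this
  have hyb : 0 ≤ y ⬝ᵥ b := by
    have := hyW _ ⟨0, h1.zero_mem, 0, h2.zero_mem, rfl⟩
    rw [mulVec_zero, zero_sub, zero_sub, neg_neg] at this
    exact this
  have hyA : ∀ x ∈ K₂, y ⬝ᵥ A.mulVec x ≤ 0 := by
    intro x hx
    have : 0 ≤ -(y ⬝ᵥ A.mulVec x) := by
      apply hbd _ (y ⬝ᵥ b)
      intro s hs
      have := hyW _ ⟨0, h1.zero_mem, s • x, h2.smul_mem s hs x hx, rfl⟩
      rw [mulVec_smul, zero_sub, neg_sub, dotProduct_sub, dotProduct_smul, smul_eq_mul] at this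
      linarith
    linarith
  refine ⟨y, hyK, hy1, ?_⟩
  rintro z ⟨hz1, hz2⟩
  rw [homog_mulVec, dotProduct_sub, dotProduct_smul, smul_eq_mul]
  have h3 := hyA _ hz1
  have h4 := mul_nonneg hz2 hyb
  linarith

/-- The bilinear form of a matrix at unit vectors is at most its Frobenius norm. -/
lemma abs_bilin_le {R' Q' : Type} [Fintype R'] [Fintype Q'] (E : Matrix R' Q' ℝ) {t : ℝ}
    (ht : 0 ≤ t) (hE : ∑ r, ∑ q, E r q ^ 2 ≤ t ^ 2)
    {y : R' → ℝ} {z : Q' → ℝ} (hy : y ⬝ᵥ y = 1) (hz : z ⬝ᵥ z = 1) :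
    |y ⬝ᵥ E.mulVec z| ≤ t := by
  have h1 : y ⬝ᵥ E.mulVec z = ∑ p : R' × Q', E p.1 p.2 * (y p.1 * z p.2) := by
    rw [Fintype.sum_prod_type]
    simp only [dotProduct, mulVec, Finset.mul_sum]
    apply Finset.sum_congr rfl
    intro r _
    apply Finset.sum_congr rfl
    intro q _
    ring
  have h2 := Finset.sum_mul_sq_le_sq_mul_sq (Finset.univ : Finset (R' × Q'))
    (fun p => E p.1 p.2) (fun p => y p.1 * z p.2)
  have h3 : ∑ p : R' × Q', (y p.1 * z p.2) ^ 2 = 1 := by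
    rw [Fintype.sum_prod_type]
    have : ∀ r, ∑ q, (y r * z q) ^ 2 = y r ^ 2 := by
      intro r
      simp only [mul_pow, ← Finset.mul_sum]
      have hz' : ∑ q, z q ^ 2 = 1 := by
        rw [← hz]; simp [dotProduct, sq]
      rw [hz', mul_one]
    simp only [this]
    rw [← hy]; simp [dotProduct, sq]
  rw [h3, mul_one, ← h1] at h2
  rw [Fintype.sum_prod_type (f := fun p : R' × Q' => E p.1 p.2 ^ 2)] at h2
  exact abs_le_of_sq_le_sq (h2.trans hE) ht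

/-- If a perturbation of Frobenius norm at most `t` changes the feasibility of the system, then the
homogenised matrix is `t`-close to be ill-posed. -/
lemma change_ill {K₁ : Set (R → ℝ)} {K₂ : Set (Q → ℝ)} {A A' : Matrix R Q ℝ} {b b' : R → ℝ}
    (h1 : IsClosedConvexCone K₁) (h2 : IsClosedConvexCone K₂) {t : ℝ} (ht : 0 ≤ t)
    (hE : ∑ r, ((∑ q, (A r q - A' r q) ^ 2) + (b r - b' r) ^ 2) ≤ t ^ 2)
    (h : ¬ (Feas K₁ K₂ A' b' ↔ Feas K₁ K₂ A b)) :
    (∃ z ∈ coneUp K₂, z ⬝ᵥ z = 1 ∧ ∀ y ∈ dualCone K₁, y ⬝ᵥ y = 1 →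
        -t ≤ y ⬝ᵥ (homog A b).mulVec z) ∧
      (∃ y ∈ dualCone K₁, y ⬝ᵥ y = 1 ∧ ∀ x ∈ coneUp K₂, x ⬝ᵥ x = 1 →
        y ⬝ᵥ (homog A b).mulVec x ≤ t) := by
  have hd : ∀ (y : R → ℝ) (z : Option Q → ℝ), y ⬝ᵥ y = 1 → z ⬝ᵥ z = 1 →
      |y ⬝ᵥ (homog A b).mulVec z - y ⬝ᵥ (homog A' b').mulVec z| ≤ t := by
    intro y z hy hz
    rw [← dotProduct_sub, ← sub_mulVec]
    apply abs_bilin_le _ ht _ hy hz
    refine le_trans (le_of_eq ?_) hE
    apply Finset.sum_congr rfl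
    intro r _
    rw [Fintype.sum_option]
    simp only [homog, Matrix.sub_apply, Matrix.of_apply]
    ring
  have key : ∀ (A₁ A₂ : Matrix R Q ℝ) (b₁ b₂ : R → ℝ), Feas K₁ K₂ A₁ b₁ → ¬ Feas K₁ K₂ A₂ b₂ →
      ((∃ z ∈ coneUp K₂, z ⬝ᵥ z = 1 ∧ ∀ y ∈ dualCone K₁, 0 ≤ y ⬝ᵥ (homog A₁ b₁).mulVec z) ∧
      (∃ y ∈ dualCone K₁, y ⬝ᵥ y = 1 ∧ ∀ z ∈ coneUp K₂, y ⬝ᵥ (homog A₂ b₂).mulVec z ≤ 0)) :=
    fun A₁ A₂ b₁ b₂ hf hn => ⟨feas_homog h2 hf, infeas_homog h1 h2 hn⟩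
  by_cases hf : Feas K₁ K₂ A b
  · have hf' : ¬ Feas K₁ K₂ A' b' := fun h' => h ⟨fun _ => hf, fun _ => h'⟩
    obtain ⟨⟨z, hz, hz1, hzy⟩, ⟨y, hy, hy1, hyz⟩⟩ := key _ _ _ _ hf hf'
    refine ⟨⟨z, hz, hz1, fun y' hy' _ => ?_⟩, ⟨y, hy, hy1, fun x hx hx1 => ?_⟩⟩
    · have := hzy y' hy'
      linarith
    · have h3 := hyz x hx
      have h4 := (abs_le.1 (hd y x hy1 hx1)).2
      linarith
  · have hf' : Feas K₁ K₂ A' b' := by
      by_contra h'
      exact h ⟨fun h'' => absurd h'' h', fun h'' => absurd h'' hf⟩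
    obtain ⟨⟨z, hz, hz1, hzy⟩, ⟨y, hy, hy1, hyz⟩⟩ := key _ _ _ _ hf' hf
    refine ⟨⟨z, hz, hz1, fun y' hy' hy1' => ?_⟩, ⟨y, hy, hy1, fun x hx _ => ?_⟩⟩
    · have h3 := hzy y' hy'
      have h4 := (abs_le.1 (hd y' z hy1' hz1)).1
      linarith
    · have := hyz x hx
      linarith

/-- Changing one entry of a matrix. -/
lemma dot_entry {R' Q' : Type} [Fintype R'] [Fintype Q'] [DecidableEq R'] [DecidableEq Q']
    (B₁ B₂ : Matrix R' Q' ℝ) (r : R') (q : Q') (c : ℝ)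
    (h : ∀ r' q', B₂ r' q' = B₁ r' q' + if r' = r ∧ q' = q then c else 0)
    (x : Q' → ℝ) (y : R' → ℝ) :
    y ⬝ᵥ B₂.mulVec x = y ⬝ᵥ B₁.mulVec x + c * (y r * x q) := by
  have h1 : ∀ r', B₂.mulVec x r' = B₁.mulVec x r' + if r' = r then c * x q else 0 := by
    intro r'
    simp only [mulVec, dotProduct]
    have : ∀ q', B₂ r' q' * x q' = B₁ r' q' * x q' + (if q' = q then
        (if r' = r then c * x q else 0) else 0) := by
      intro q'
      rw [h]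
      by_cases h1 : r' = r <;> by_cases h2 : q' = q <;> simp [h1, h2, add_mul]
    simp only [this, Finset.sum_add_distrib]
    congr 1
    rw [Finset.sum_ite_eq' Finset.univ q]
    simp
  simp only [dotProduct, h1, mul_add, Finset.sum_add_distrib]
  congr 1
  have : ∀ r', y r' * (if r' = r then c * x q else 0) = if r' = r then c * (y r * x q) else 0 := by
    intro r'
    by_cases h1 : r' = r
    · simp only [h1, if_true]; ring
    · simp [h1]
  simp only [this]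
  rw [Finset.sum_ite_eq' Finset.univ r]
  simp

end Pool.Agent.H836R3
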