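import Mathlib

/-!
# A slicing bound for product Gaussian measures
-/

open MeasureTheory ProbabilityTheory Set
open scoped ENNReal NNReal

namespace Pool.Agent.H836R3

/-- The density of a Gaussian is at most `1 / σ`. -/
lemma gaussianPDF_le (a : ℝ) {σ : ℝ} (hσ : 0 < σ) (x : ℝ) :
    gaussianPDF a (Real.toNNReal (σ ^ 2)) x ≤ ENNReal.ofReal (1 / σ) := by
  unfold gaussianPDF
  apply ENNReal.ofReal_le_ofReal
  rw [gaussianPDFReal_def]
  simp only [Real.coe_toNNReal _ (sq_nonneg σ)]
  have h1 : Real.exp (-(x - a) ^ 2 / (2 * σ ^ 2)) ≤ 1 := by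
    rw [Real.exp_le_one_iff]
    apply div_nonpos_of_nonpos_of_nonneg
    · nlinarith [sq_nonneg (x - a)]
    · positivity
  have h2 : (Real.sqrt (2 * Real.pi * σ ^ 2))⁻¹ ≤ 1 / σ := by
    rw [one_div]
    apply inv_anti₀ hσ
    apply Real.le_sqrt_of_sq_le
    have : (1 : ℝ) ≤ 2 * Real.pi := by linarith [Real.pi_gt_three]
    nlinarith [sq_nonneg σ]
  calc _ ≤ (1 / σ) * 1 := by
        apply mul_le_mul h2 h1 (Real.exp_pos _).le
        positivity
    _ = 1 / σ := mul_one _

/-- A set of diameter at most `L` has Gaussian measure at most `2 L / σ`. -/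
lemma gaussian_diam_le (a : ℝ) {σ : ℝ} (hσ : 0 < σ) {L : ℝ} (T : Set ℝ)
    (hT : ∀ s ∈ T, ∀ s' ∈ T, |s - s'| ≤ L) :
    gaussianReal a (Real.toNNReal (σ ^ 2)) T ≤ ENNReal.ofReal (2 * L / σ) := by
  rcases T.eq_empty_or_nonempty with rfl | ⟨s0, hs0⟩
  · simp
  have hv : Real.toNNReal (σ ^ 2) ≠ 0 := by
    rw [Ne, Real.toNNReal_eq_zero, not_le]
    positivity
  have hsub : T ⊆ Icc (s0 - L) (s0 + L) := by
    intro s hs
    have := abs_le.1 (hT s hs s0 hs0)
    constructor <;> linarith
  calc gaussianReal a (Real.toNNReal (σ ^ 2)) T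
      ≤ gaussianReal a (Real.toNNReal (σ ^ 2)) (Icc (s0 - L) (s0 + L)) := measure_mono hsub
    _ = ∫⁻ x in Icc (s0 - L) (s0 + L), gaussianPDF a (Real.toNNReal (σ ^ 2)) x := by
        rw [gaussianReal_apply a hv]
    _ ≤ ∫⁻ x in Icc (s0 - L) (s0 + L), ENNReal.ofReal (1 / σ) :=
        lintegral_mono fun x => gaussianPDF_le a hσ x
    _ = ENNReal.ofReal (1 / σ) * volume (Icc (s0 - L) (s0 + L)) := by
        rw [setLIntegral_const]
    _ = ENNReal.ofReal (2 * L / σ) := by
        rw [Real.volume_Icc, ← ENNReal.ofReal_mul (by positivity)]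
        congr 1
        field_simp
        ring

/-- The law of `(A, b, c)`: independent Gaussian coordinates. -/
noncomputable def gaussPi {ι : Type} [Fintype ι] (a : ι → ℝ) (σ : ℝ) : Measure (ι → ℝ) :=
  Measure.pi fun k => gaussianReal (a k) (Real.toNNReal (σ ^ 2))

instance {ι : Type} [Fintype ι] (a : ι → ℝ) (σ : ℝ) : IsProbabilityMeasure (gaussPi a σ) := by
  unfold gaussPi; infer_instance

/-- Resampling one coordinate preserves a product of probability measures. -/
lemma resample {ι : Type} [Fintype ι] [DecidableEq ι] (μ : ι → Measure ℝ)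
    [∀ i, IsProbabilityMeasure (μ i)] (k : ι) :
    Measure.map (fun p : (ι → ℝ) × ℝ => Function.update p.1 k p.2)
      ((Measure.pi μ).prod (μ k)) = Measure.pi μ := by
  have hm : Measurable (fun p : (ι → ℝ) × ℝ => Function.update p.1 k p.2) := by
    rw [measurable_pi_iff]
    intro i
    by_cases h : i = k
    · subst h
      simpa using measurable_snd
    · simp only [Function.update_of_ne h]
      exact (measurable_pi_apply i).comp measurable_fst
  symm
  apply Measure.pi_eq
  intro s hs
  rw [Measure.map_apply hm (MeasurableSet.univ_pi hs)]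
  have hpre : (fun p : (ι → ℝ) × ℝ => Function.update p.1 k p.2) ⁻¹' (Set.univ.pi s)
      = (Set.univ.pi (Function.update s k univ)) ×ˢ (s k) := by
    ext ⟨x, y⟩
    simp only [mem_preimage, mem_pi, mem_univ, forall_const, mem_prod]
    constructor
    · intro h
      refine ⟨fun i => ?_, by simpa using h k⟩
      by_cases hi : i = k
      · subst hi; simp
      · have := h i
        simpa [Function.update_of_ne hi] using this
    · rintro ⟨h1, h2⟩ i
      by_cases hi : i = k
      · subst hi; simpa using h2
      · have := h1 i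
        simpa [Function.update_of_ne hi] using this
  rw [hpre, Measure.prod_prod, Measure.pi_pi]
  rw [← Finset.mul_prod_erase Finset.univ (fun i => μ i (s i)) (Finset.mem_univ k),
    ← Finset.mul_prod_erase Finset.univ (fun i => μ i (Function.update s k univ i))
      (Finset.mem_univ k)]
  simp only [Function.update_self, measure_univ, one_mul]
  rw [mul_comm]
  congr 1
  apply Finset.prod_congr rfl
  intro i hi
  rw [Function.update_of_ne (Finset.ne_of_mem_erase hi)]

/-- If all the slices of `S` in the direction of the coordinate `k` have diameter at most `L` then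
the Gaussian measure of `S` is at most `2 L / σ`. -/
lemma gaussPi_slice_le {ι : Type} [Fintype ι] [DecidableEq ι] (a : ι → ℝ) {σ : ℝ} (hσ : 0 < σ)
    (S : Set (ι → ℝ)) (hS : MeasurableSet S) (k : ι) {L : ℝ}
    (hL : ∀ d s s', Function.update d k s ∈ S → Function.update d k s' ∈ S → |s - s'| ≤ L) :
    gaussPi a σ S ≤ ENNReal.ofReal (2 * L / σ) := by
  unfold gaussPi
  rw [← resample (fun k => gaussianReal (a k) (Real.toNNReal (σ ^ 2))) k]
  have hm : Measurable (fun p : (ι → ℝ) × ℝ => Function.update p.1 k p.2) := by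
    rw [measurable_pi_iff]
    intro i
    by_cases h : i = k
    · subst h
      simpa using measurable_snd
    · simp only [Function.update_of_ne h]
      exact (measurable_pi_apply i).comp measurable_fst
  rw [Measure.map_apply hm hS, Measure.prod_apply (hm hS)]
  calc _ ≤ ∫⁻ _x, ENNReal.ofReal (2 * L / σ)
        ∂(Measure.pi fun k => gaussianReal (a k) (Real.toNNReal (σ ^ 2))) := by
        apply lintegral_mono
        intro x
        apply gaussian_diam_le (a k) hσ
        intro s hs s' hs'
        exact hL x s s' hs hs'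
    _ = ENNReal.ofReal (2 * L / σ) := by simp

end Pool.Agent.H836R3
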