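import Mathlib

/-!
# Separation and the covering of the ill-posed matrices
-/

open Set Matrix

namespace Pool.Agent.H836R3

set_option linter.unusedSectionVars false

variable {Q R : Type} [Fintype Q] [Fintype R]

/-- Closed convex cones in coordinate space. -/
structure IsClosedConvexCone (C : Set (Q → ℝ)) : Prop where
  closed : IsClosed C
  convex : Convex ℝ C
  nonempty : C.Nonempty
  smul_mem : ∀ t : ℝ, 0 ≤ t → ∀ x ∈ C, t • x ∈ C

/-- The dual cone. -/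
def dualCone (C : Set (Q → ℝ)) : Set (Q → ℝ) := {u | ∀ v ∈ C, 0 ≤ u ⬝ᵥ v}

lemma IsClosedConvexCone.zero_mem {C : Set (Q → ℝ)} (h : IsClosedConvexCone C) :
    (0 : Q → ℝ) ∈ C := by
  obtain ⟨x, hx⟩ := h.nonempty
  simpa using h.smul_mem 0 le_rfl x hx

lemma IsClosedConvexCone.add_mem {C : Set (Q → ℝ)} (h : IsClosedConvexCone C) {x y : Q → ℝ}
    (hx : x ∈ C) (hy : y ∈ C) : x + y ∈ C := by
  have h1 := h.convex hx hy (by norm_num : (0 : ℝ) ≤ 1 / 2) (by norm_num : (0 : ℝ) ≤ 1 / 2)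
    (by norm_num)
  have h2 := h.smul_mem 2 (by norm_num) _ h1
  rw [smul_add, smul_smul, smul_smul] at h2
  norm_num at h2
  exact h2

lemma isClosedConvexCone_dualCone (C : Set (Q → ℝ)) : IsClosedConvexCone (dualCone C) where
  closed := by
    have : dualCone C = ⋂ v ∈ C, {u : Q → ℝ | 0 ≤ u ⬝ᵥ v} := by
      ext u; simp [dualCone]
    rw [this]
    refine isClosed_biInter fun v _ => ?_
    apply isClosed_le continuous_const
    unfold dotProduct
    fun_prop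
  convex := by
    intro x hx y hy a b ha hb _ v hv
    rw [add_dotProduct, smul_dotProduct, smul_dotProduct]
    have h1 := hx v hv
    have h2 := hy v hv
    simp only [smul_eq_mul]
    positivity
  nonempty := ⟨0, fun v _ => by simp⟩
  smul_mem := by
    intro t ht x hx v hv
    rw [smul_dotProduct]
    have h1 := hx v hv
    simp only [smul_eq_mul]
    positivity

/-- Every continuous linear functional is a dot product. -/
lemma exists_dot (f : (Q → ℝ) →L[ℝ] ℝ) : ∃ u : Q → ℝ, ∀ x, f x = u ⬝ᵥ x := by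
  classical
  refine ⟨fun i => f (Pi.single i 1), fun x => ?_⟩
  have h : x = ∑ i, x i • (Pi.single i (1 : ℝ) : Q → ℝ) := by
    ext j
    simp [Finset.sum_apply, Pi.single_apply]
  conv_lhs => rw [h]
  rw [map_sum]
  unfold dotProduct
  apply Finset.sum_congr rfl
  intro i _
  rw [map_smul, smul_eq_mul, mul_comm]

/-- A point outside a closed convex cone is separated from it by an element of the dual cone. -/
lemma sep_point {C : Set (Q → ℝ)} (h : IsClosedConvexCone C) {x : Q → ℝ} (hx : x ∉ C) :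
    ∃ u ∈ dualCone C, u ⬝ᵥ x < 0 := by
  obtain ⟨f, u, h1, h2⟩ := geometric_hahn_banach_point_closed h.convex h.closed hx
  obtain ⟨w, hw⟩ := exists_dot f
  have hu : u < 0 := by
    have := h2 0 h.zero_mem
    simpa using this
  refine ⟨w, ?_, ?_⟩
  · intro v hv
    by_contra hneg
    push Not at hneg
    have h3 := h2 ((u / (w ⬝ᵥ v)) • v) (h.smul_mem _ (div_nonneg_of_nonpos hu.le hneg.le) v hv)
    rw [hw, dotProduct_smul, smul_eq_mul, div_mul_cancel₀ _ hneg.ne] at h3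
    exact lt_irrefl _ h3
  · rw [← hw]; linarith

/-- The bipolar theorem. -/
lemma dualCone_dualCone {C : Set (Q → ℝ)} (h : IsClosedConvexCone C) :
    dualCone (dualCone C) = C := by
  apply Subset.antisymm
  · intro x hx
    by_contra hne
    obtain ⟨u, hu, hlt⟩ := sep_point h hne
    have := hx u hu
    rw [dotProduct_comm] at this
    linarith
  · intro x hx u hu
    rw [dotProduct_comm]
    exact hu x hx

/-- A nonzero vector can be normalised. -/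
lemma exists_unit {x : Q → ℝ} (hx : x ≠ 0) :
    ∃ t : ℝ, 0 < t ∧ (t • x) ⬝ᵥ (t • x) = 1 := by
  have hnn : 0 ≤ x ⬝ᵥ x := Finset.sum_nonneg fun i _ => mul_self_nonneg (x i)
  have hpos : 0 < x ⬝ᵥ x := by
    rcases hnn.lt_or_eq with h | h
    · exact h
    · exact absurd (dotProduct_self_eq_zero.1 h.symm) hx
  refine ⟨(Real.sqrt (x ⬝ᵥ x))⁻¹, by positivity, ?_⟩
  rw [smul_dotProduct, dotProduct_smul, smul_eq_mul, smul_eq_mul]
  have := Real.mul_self_sqrt hpos.le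
  have h0 : Real.sqrt (x ⬝ᵥ x) ≠ 0 := by positivity
  field_simp
  rw [sq, this]

lemma abs_le_one_of_unit {x : Q → ℝ} (hx : x ⬝ᵥ x = 1) (i : Q) : |x i| ≤ 1 := by
  have h1 : x i * x i ≤ x ⬝ᵥ x :=
    Finset.single_le_sum (f := fun i => x i * x i) (fun j _ => mul_self_nonneg (x j))
      (Finset.mem_univ i)
  rw [hx] at h1
  exact abs_le_of_sq_le_sq (by nlinarith) (by norm_num)

lemma isCompact_unit : IsCompact {x : Q → ℝ | x ⬝ᵥ x = 1} := by
  apply Metric.isCompact_of_isClosed_isBounded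
  · apply isClosed_eq _ continuous_const
    unfold dotProduct
    fun_prop
  · apply (Metric.isBounded_closedBall (x := (0 : Q → ℝ)) (r := 1)).subset
    intro x hx
    rw [mem_closedBall_zero_iff, pi_norm_le_iff_of_nonneg zero_le_one]
    intro i
    exact abs_le_one_of_unit hx i

/-- Weak separation of the origin from an arbitrary convex set. -/
lemma sep_weak {W : Set (Q → ℝ)} (hW : Convex ℝ W) (hne : W.Nonempty) (h0 : (0 : Q → ℝ) ∉ W) :
    ∃ y : Q → ℝ, y ⬝ᵥ y = 1 ∧ ∀ w ∈ W, 0 ≤ y ⬝ᵥ w := by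
  classical
  obtain ⟨w0, hw0⟩ := hne
  have key : ({x : Q → ℝ | x ⬝ᵥ x = 1} ∩ ⋂ w : W, {y : Q → ℝ | 0 ≤ y ⬝ᵥ (w : Q → ℝ)}).Nonempty := by
    apply isCompact_unit.inter_iInter_nonempty
    · intro w
      apply isClosed_le continuous_const
      unfold dotProduct
      fun_prop
    · intro u
      let F : Finset (Q → ℝ) := insert w0 (u.image fun w : W => (w : Q → ℝ))
      have hFW : (F : Set (Q → ℝ)) ⊆ W := by
        intro x hx
        rw [Finset.mem_coe, Finset.mem_insert, Finset.mem_image] at hx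
        rcases hx with rfl | ⟨w, _, rfl⟩
        · exact hw0
        · exact w.2
      have hcl : IsClosed (convexHull ℝ (F : Set (Q → ℝ))) :=
        (F.finite_toSet.isCompact_convexHull (𝕜 := ℝ)).isClosed
      have h0' : (0 : Q → ℝ) ∉ convexHull ℝ (F : Set (Q → ℝ)) := fun h =>
        h0 (convexHull_min hFW hW h)
      obtain ⟨f, c, h1, h2⟩ := geometric_hahn_banach_point_closed (convex_convexHull ℝ _) hcl h0'
      obtain ⟨y, hy⟩ := exists_dot f
      rw [map_zero] at h1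
      have h3 : ∀ w ∈ F, 0 < y ⬝ᵥ w := by
        intro w hw
        rw [← hy]
        exact h1.trans (h2 w (subset_convexHull ℝ _ hw))
      have hy0 : y ≠ 0 := by
        rintro rfl
        have := h3 w0 (Finset.mem_insert_self _ _)
        simp at this
      obtain ⟨t, ht, ht1⟩ := exists_unit hy0
      refine ⟨t • y, ht1, ?_⟩
      simp only [mem_iInter, Set.mem_ofPred_eq]
      intro w hw
      rw [smul_dotProduct, smul_eq_mul]
      have := h3 (w : Q → ℝ) (Finset.mem_insert_of_mem (Finset.mem_image_of_mem _ hw))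
      positivity
  obtain ⟨y, hy1, hy2⟩ := key
  refine ⟨y, hy1, fun w hw => ?_⟩
  simp only [mem_iInter] at hy2
  exact hy2 ⟨w, hw⟩

/-- A unit vector has a large coordinate. -/
lemma exists_large [Nonempty Q] {x : Q → ℝ} (hx : x ⬝ᵥ x = 1) :
    ∃ q : Q, ∃ ε : ℝ, (ε = 1 ∨ ε = -1) ∧ (Real.sqrt (Fintype.card Q))⁻¹ ≤ ε * x q := by
  have hc : (0 : ℝ) < Fintype.card Q := by exact_mod_cast Fintype.card_pos
  have h1 : ∃ q : Q, (Fintype.card Q : ℝ)⁻¹ ≤ x q * x q := by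
    by_contra hcon
    push Not at hcon
    have h2 : x ⬝ᵥ x < ∑ _q : Q, (Fintype.card Q : ℝ)⁻¹ :=
      Finset.sum_lt_sum_of_nonempty Finset.univ_nonempty fun q _ => hcon q
    rw [hx, Finset.sum_const, Finset.card_univ, nsmul_eq_mul, mul_inv_cancel₀ hc.ne'] at h2
    exact lt_irrefl _ h2
  obtain ⟨q, hq⟩ := h1
  have h3 : (Real.sqrt (Fintype.card Q))⁻¹ ≤ |x q| := by
    rw [← Real.sqrt_inv, ← Real.sqrt_mul_self_eq_abs]
    exact Real.sqrt_le_sqrt hq
  rcases abs_choice (x q) with h | h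
  · exact ⟨q, 1, Or.inl rfl, by rw [one_mul, ← h]; exact h3⟩
  · exact ⟨q, -1, Or.inr rfl, by rw [neg_one_mul, ← h]; exact h3⟩

/-- The first half of the exceptional set. -/
def SA (C : Set (Q → ℝ)) (D : Set (R → ℝ)) (q : Q) (r : R) (ε ε' : ℝ) : Set (Matrix R Q ℝ) :=
  {B | ∃ y, y ⬝ᵥ y = 1 ∧ (y ∈ D ∧ (Real.sqrt (Fintype.card R))⁻¹ ≤ ε' * y r ∧
    ∀ x ∈ C, 0 < ε * x q → y ⬝ᵥ B.mulVec x ≤ 0)}

/-- The second half of the exceptional set. -/
def SB (C : Set (Q → ℝ)) (D : Set (R → ℝ)) (q : Q) (ε t : ℝ) : Set (Matrix R Q ℝ) :=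
  {B | ∃ z, z ⬝ᵥ z = 1 ∧ (z ∈ C ∧ (Real.sqrt (Fintype.card Q))⁻¹ ≤ ε * z q ∧
    ∀ y ∈ D, y ⬝ᵥ y = 1 → -t ≤ y ⬝ᵥ B.mulVec z)}

/-- The slices of the exceptional set are short. -/
lemma slice {C : Set (Q → ℝ)} {D : Set (R → ℝ)} {q : Q} {r : R} [Nonempty Q] [Nonempty R]
    {ε ε' t : ℝ} (hε : ε = 1 ∨ ε = -1) (hε' : ε' = 1 ∨ ε' = -1)
    {B B' : Matrix R Q ℝ} {τ : ℝ}
    (hBB : ∀ (x : Q → ℝ) (y : R → ℝ), y ⬝ᵥ B'.mulVec x = y ⬝ᵥ B.mulVec x + τ * (y r * x q))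
    (hB : B ∈ SA C D q r ε ε' ∩ SB C D q ε t) (hB' : B' ∈ SA C D q r ε ε' ∩ SB C D q ε t) :
    |τ| ≤ t * Real.sqrt (Fintype.card R) * Real.sqrt (Fintype.card Q) := by
  have hcQ : (0 : ℝ) < Real.sqrt (Fintype.card Q) :=
    Real.sqrt_pos.2 (by exact_mod_cast Fintype.card_pos)
  have hcR : (0 : ℝ) < Real.sqrt (Fintype.card R) :=
    Real.sqrt_pos.2 (by exact_mod_cast Fintype.card_pos)
  obtain ⟨⟨y, hy1, hyD, hyr, hyC⟩, ⟨z, hz1, hzC, hzq, hzD⟩⟩ := hB
  obtain ⟨⟨y', hy1', hyD', hyr', hyC'⟩, ⟨z', hz1', hzC', hzq', hzD'⟩⟩ := hB'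
  have aux : ∀ (s a b cR cQ : ℝ), 0 < cR → 0 < cQ → cR⁻¹ ≤ a → cQ⁻¹ ≤ b → 0 ≤ s → s * (a * b) ≤ t →
      s ≤ t * cR * cQ := by
    intro s a b cR cQ hR hQ ha hb hs h
    have h1 : cR⁻¹ * cQ⁻¹ ≤ a * b := mul_le_mul ha hb (by positivity) (le_trans (by positivity) ha)
    have h2 : s * (cR⁻¹ * cQ⁻¹) ≤ t := (mul_le_mul_of_nonneg_left h1 hs).trans h
    have h3 : s = s * (cR⁻¹ * cQ⁻¹) * (cR * cQ) := by field_simp
    rw [h3, mul_assoc t]
    exact mul_le_mul_of_nonneg_right h2 (by positivity)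
  have hpos : ∀ u : ℝ, (Real.sqrt (Fintype.card Q))⁻¹ ≤ u → 0 < u := fun u hu =>
    lt_of_lt_of_le (by positivity) hu
  -- first inequality
  have e1 : τ * (y' r * z q) ≤ t := by
    have h1 := hyC' z hzC (hpos _ hzq)
    rw [hBB] at h1
    have h2 := hzD y' hyD' hy1'
    linarith
  have e2 : -τ * (y r * z' q) ≤ t := by
    have h1 := hyC z' hzC' (hpos _ hzq')
    have h2 := hzD' y hyD hy1
    rw [hBB] at h2
    linarith
  have hεε : ε * ε = 1 := by rcases hε with h | h <;> rw [h] <;> norm_num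
  have hεε' : ε' * ε' = 1 := by rcases hε' with h | h <;> rw [h] <;> norm_num
  have f1 : (ε * ε' * τ) * ((ε' * y' r) * (ε * z q)) ≤ t := by
    have : (ε * ε' * τ) * ((ε' * y' r) * (ε * z q))
        = (ε * ε) * (ε' * ε') * (τ * (y' r * z q)) := by ring
    rw [this, hεε, hεε']; linarith
  have f2 : (-(ε * ε' * τ)) * ((ε' * y r) * (ε * z' q)) ≤ t := by
    have : (-(ε * ε' * τ)) * ((ε' * y r) * (ε * z' q))
        = (ε * ε) * (ε' * ε') * (-τ * (y r * z' q)) := by ring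
    rw [this, hεε, hεε']; linarith
  have habs : |τ| = |ε * ε' * τ| := by
    rw [abs_mul, abs_mul]
    rcases hε with h | h <;> rcases hε' with h' | h' <;> rw [h, h'] <;> simp
  rw [habs]
  rcases le_total 0 (ε * ε' * τ) with h | h
  · rw [abs_of_nonneg h]
    exact aux _ _ _ _ _ hcR hcQ hyr' hzq h f1
  · rw [abs_of_nonpos h]
    exact aux _ _ _ _ _ hcR hcQ hyr hzq' (by linarith) f2

/-- If `C` contains a large-coordinate witness, and `B` is either infeasible or dual feasible, then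
`B` lies in one of the exceptional sets. -/
lemma cover_aux {C : Set (Q → ℝ)} {D : Set (R → ℝ)} [Nonempty Q] [Nonempty R]
    (hC : IsClosedConvexCone C) (hD : IsClosedConvexCone D) {B : Matrix R Q ℝ} {t : ℝ}
    (hII : ∃ z ∈ C, z ⬝ᵥ z = 1 ∧ ∀ y ∈ D, y ⬝ᵥ y = 1 → -t ≤ y ⬝ᵥ B.mulVec z)
    (hFG : (∀ z ∈ C, z ≠ 0 → ∃ y ∈ D, y ⬝ᵥ B.mulVec z < 0) ∨
      (∃ y ∈ D, y ≠ 0 ∧ ∀ x ∈ C, y ⬝ᵥ B.mulVec x ≤ 0)) :
    ∃ (q : Q) (r : R) (ε ε' : ℝ), (ε = 1 ∨ ε = -1) ∧ (ε' = 1 ∨ ε' = -1) ∧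
      B ∈ SA C D q r ε ε' ∩ SB C D q ε t := by
  obtain ⟨z, hzC, hz1, hzD⟩ := hII
  obtain ⟨q, ε, hε, hzq⟩ := exists_large hz1
  have hcQ : (0 : ℝ) < Real.sqrt (Fintype.card Q) :=
    Real.sqrt_pos.2 (by exact_mod_cast Fintype.card_pos)
  have hzpos : 0 < ε * z q := lt_of_lt_of_le (by positivity) hzq
  -- a unit vector y
  have hy : ∃ y ∈ D, y ⬝ᵥ y = 1 ∧ ∀ x ∈ C, 0 < ε * x q → y ⬝ᵥ B.mulVec x ≤ 0 := by
    rcases hFG with hF | ⟨y, hyD, hy0, hy⟩
    · let W : Set (R → ℝ) := {w | ∃ e ∈ dualCone D, ∃ x ∈ C, 0 < ε * x q ∧ w = e - B.mulVec x}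
      have hDc := isClosedConvexCone_dualCone D
      have hWc : Convex ℝ W := by
        rintro w1 ⟨e1, he1, x1, hx1, hp1, rfl⟩ w2 ⟨e2, he2, x2, hx2, hp2, rfl⟩ a b ha hb hab
        refine ⟨a • e1 + b • e2, hDc.convex he1 he2 ha hb hab, a • x1 + b • x2,
          hC.convex hx1 hx2 ha hb hab, ?_, ?_⟩
        · simp only [Pi.add_apply, Pi.smul_apply, smul_eq_mul]
          have : ε * (a * x1 q + b * x2 q) = a * (ε * x1 q) + b * (ε * x2 q) := by ring
          rw [this]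
          rcases ha.lt_or_eq with h | h
          · have := mul_pos h hp1
            have := mul_nonneg hb hp2.le
            linarith
          · have hb1 : b = 1 := by linarith
            rw [← h, hb1]; linarith
        · rw [mulVec_add, mulVec_smul, mulVec_smul, smul_sub, smul_sub]
          abel
      have hWne : W.Nonempty := ⟨_, 0, hDc.zero_mem, z, hzC, hzpos, rfl⟩
      have hW0 : (0 : R → ℝ) ∉ W := by
        rintro ⟨e, he, x, hx, hp, h⟩
        have hxne : x ≠ 0 := by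
          rintro rfl
          simp at hp
        obtain ⟨y, hyD, hy⟩ := hF x hx hxne
        have he' : e = B.mulVec x := (sub_eq_zero.1 h.symm)
        have := he y hyD
        rw [he', dotProduct_comm] at this
        linarith
      obtain ⟨y, hy1, hyW⟩ := sep_weak hWc hWne hW0
      have hyD : y ∈ D := by
        rw [← dualCone_dualCone hD]
        intro e he
        by_contra hneg
        push Not at hneg
        set s : ℝ := |y ⬝ᵥ B.mulVec z| + 1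
        have h1 := hyW ((s / (-(y ⬝ᵥ e))) • e - B.mulVec z)
          ⟨_, hDc.smul_mem _ (div_nonneg (by positivity) (by linarith)) e he, z, hzC, hzpos, rfl⟩
        rw [dotProduct_sub, dotProduct_smul, smul_eq_mul] at h1
        have h2 : s / (-(y ⬝ᵥ e)) * (y ⬝ᵥ e) = -s := by
          have : y ⬝ᵥ e ≠ 0 := hneg.ne
          field_simp
        rw [h2] at h1
        have h3 := neg_abs_le (y ⬝ᵥ B.mulVec z)
        simp only [s] at h1
        linarith
      refine ⟨y, hyD, hy1, fun x hx hp => ?_⟩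
      have h1 := hyW (0 - B.mulVec x) ⟨0, hDc.zero_mem, x, hx, hp, rfl⟩
      rw [zero_sub, dotProduct_neg] at h1
      linarith
    · obtain ⟨s, hs, hs1⟩ := exists_unit hy0
      refine ⟨s • y, hD.smul_mem s hs.le y hyD, hs1, fun x hx _ => ?_⟩
      rw [smul_dotProduct, smul_eq_mul]
      exact mul_nonpos_of_nonneg_of_nonpos hs.le (hy x hx)
  obtain ⟨y, hyD, hy1, hyC⟩ := hy
  obtain ⟨r, ε', hε', hyr⟩ := exists_large hy1
  exact ⟨q, r, ε, ε', hε, hε', ⟨y, hy1, hyD, hyr, hyC⟩, ⟨z, hz1, hzC, hzq, hzD⟩⟩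

/-- The covering of the ill-posed matrices by the exceptional sets. -/
lemma cover {C : Set (Q → ℝ)} {D : Set (R → ℝ)} [Nonempty Q] [Nonempty R]
    (hC : IsClosedConvexCone C) (hD : IsClosedConvexCone D) {B : Matrix R Q ℝ} {t : ℝ}
    (hII : ∃ z ∈ C, z ⬝ᵥ z = 1 ∧ ∀ y ∈ D, y ⬝ᵥ y = 1 → -t ≤ y ⬝ᵥ B.mulVec z)
    (hI : ∃ y ∈ D, y ⬝ᵥ y = 1 ∧ ∀ x ∈ C, x ⬝ᵥ x = 1 → y ⬝ᵥ B.mulVec x ≤ t) :
    ∃ (q : Q) (r : R) (ε ε' : ℝ), (ε = 1 ∨ ε = -1) ∧ (ε' = 1 ∨ ε' = -1) ∧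
      (B ∈ SA C D q r ε ε' ∩ SB C D q ε t ∨
        (-Bᵀ) ∈ SA D C r q ε' ε ∩ SB D C r ε' t) := by
  have hflip : ∀ (x : Q → ℝ) (y : R → ℝ), x ⬝ᵥ (-Bᵀ).mulVec y = -(y ⬝ᵥ B.mulVec x) := by
    intro x y
    rw [neg_mulVec, dotProduct_neg, mulVec_transpose, dotProduct_comm x, ← dotProduct_mulVec]
  by_cases hG : ∃ y ∈ D, y ≠ 0 ∧ ∀ x ∈ C, y ⬝ᵥ B.mulVec x ≤ 0
  · obtain ⟨q, r, ε, ε', h1, h2, h3⟩ := cover_aux hC hD hII (Or.inr hG)
    exact ⟨q, r, ε, ε', h1, h2, Or.inl h3⟩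
  · have hI' : ∃ z ∈ D, z ⬝ᵥ z = 1 ∧ ∀ y ∈ C, y ⬝ᵥ y = 1 → -t ≤ y ⬝ᵥ (-Bᵀ).mulVec z := by
      obtain ⟨y, hyD, hy1, hy⟩ := hI
      refine ⟨y, hyD, hy1, fun x hx hx1 => ?_⟩
      rw [hflip]
      have := hy x hx hx1
      linarith
    have hF' : ∀ z ∈ D, z ≠ 0 → ∃ y ∈ C, y ⬝ᵥ (-Bᵀ).mulVec z < 0 := by
      intro y hyD hy0
      push Not at hG
      obtain ⟨x, hxC, hx⟩ := hG y hyD hy0
      exact ⟨x, hxC, by rw [hflip]; linarith⟩
    obtain ⟨r, q, ε', ε, h1, h2, h3⟩ := cover_aux hD hC hI' (Or.inl hF')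
    exact ⟨q, r, ε, ε', h2, h1, Or.inr h3⟩

end Pool.Agent.H836R3
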