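import Pool.Agent.H836R3.Gauss
import Pool.Agent.H836R3.Sep

/-!
# The Gaussian measure of the nearly ill-posed matrices
-/

open Set Matrix MeasureTheory
open scoped ENNReal

namespace Pool.Agent.H836R3

/-- The projection of a closed set along a compact set is closed. -/
lemma isClosed_proj {X Y : Type} [TopologicalSpace X] [TopologicalSpace Y] {K : Set Y}
    (hK : IsCompact K) {T : Set (X × Y)} (hT : IsClosed T) :
    IsClosed {x : X | ∃ y ∈ K, (x, y) ∈ T} := by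
  have : CompactSpace K := isCompact_iff_compactSpace.1 hK
  have h1 : IsClosed ((fun p : X × K => (p.1, (p.2 : Y))) ⁻¹' T) :=
    hT.preimage (by fun_prop)
  have h2 := isClosedMap_fst_of_compactSpace (X := X) (Y := K) _ h1
  convert h2 using 1
  ext x
  constructor
  · rintro ⟨y, hy, h⟩
    exact ⟨(x, ⟨y, hy⟩), h, rfl⟩
  · rintro ⟨⟨x', y⟩, h, rfl⟩
    exact ⟨y, y.2, h⟩

variable {Q R : Type} [Fintype Q] [Fintype R]

lemma isClosed_SA {C : Set (Q → ℝ)} {D : Set (R → ℝ)} (hD : IsClosedConvexCone D)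
    (q : Q) (r : R) (ε ε' : ℝ) : IsClosed (SA C D q r ε ε') := by
  have hT : IsClosed {p : Matrix R Q ℝ × (R → ℝ) | p.2 ∈ D ∧
      (Real.sqrt (Fintype.card R))⁻¹ ≤ ε' * p.2 r ∧
      ∀ x ∈ C, 0 < ε * x q → p.2 ⬝ᵥ p.1.mulVec x ≤ 0} := by
    refine (hD.closed.preimage continuous_snd).and ?_
    refine (isClosed_le (by fun_prop) (by fun_prop)).and ?_
    have : {p : Matrix R Q ℝ × (R → ℝ) | ∀ x ∈ C, 0 < ε * x q → p.2 ⬝ᵥ p.1.mulVec x ≤ 0}
        = ⋂ x ∈ {x | x ∈ C ∧ 0 < ε * x q}, {p : Matrix R Q ℝ × (R → ℝ) | p.2 ⬝ᵥ p.1.mulVec x ≤ 0} := by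
      ext p; simp
    rw [this]
    refine isClosed_biInter fun x _ => ?_
    exact isClosed_le (by fun_prop) (by fun_prop)
  exact isClosed_proj isCompact_unit hT

lemma isClosed_SB {C : Set (Q → ℝ)} {D : Set (R → ℝ)} (hC : IsClosedConvexCone C)
    (q : Q) (ε t : ℝ) : IsClosed (SB C D q ε t) := by
  have hT : IsClosed {p : Matrix R Q ℝ × (Q → ℝ) | p.2 ∈ C ∧
      (Real.sqrt (Fintype.card Q))⁻¹ ≤ ε * p.2 q ∧
      ∀ y ∈ D, y ⬝ᵥ y = 1 → -t ≤ y ⬝ᵥ p.1.mulVec p.2} := by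
    refine (hC.closed.preimage continuous_snd).and ?_
    refine (isClosed_le (by fun_prop) (by fun_prop)).and ?_
    have : {p : Matrix R Q ℝ × (Q → ℝ) | ∀ y ∈ D, y ⬝ᵥ y = 1 → -t ≤ y ⬝ᵥ p.1.mulVec p.2}
        = ⋂ y ∈ {y | y ∈ D ∧ y ⬝ᵥ y = 1}, {p : Matrix R Q ℝ × (Q → ℝ) |
          -t ≤ y ⬝ᵥ p.1.mulVec p.2} := by
      ext p; simp
    rw [this]
    refine isClosed_biInter fun x _ => ?_
    exact isClosed_le (by fun_prop) (by fun_prop)
  exact isClosed_proj isCompact_unit hT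

/-- The matrix-valued map `B` depends on a separate coordinate (up to a sign) at each entry. -/
def EntryMap {ι : Type} [DecidableEq ι] (B : (ι → ℝ) → Matrix R Q ℝ) : Prop :=
  ∀ (q : Q) (r : R), ∃ (k : ι) (s : ℝ), (s = 1 ∨ s = -1) ∧
    ∀ (d : ι → ℝ) (u u' : ℝ) (x : Q → ℝ) (y : R → ℝ),
      y ⬝ᵥ (B (Function.update d k u')).mulVec x
        = y ⬝ᵥ (B (Function.update d k u)).mulVec x + (s * (u' - u)) * (y r * x q)

lemma flip_dot (B : Matrix R Q ℝ) (x : Q → ℝ) (y : R → ℝ) :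
    x ⬝ᵥ (-Bᵀ).mulVec y = -(y ⬝ᵥ B.mulVec x) := by
  rw [neg_mulVec, dotProduct_neg, mulVec_transpose, dotProduct_comm x, ← dotProduct_mulVec]

lemma EntryMap.flip {ι : Type} [DecidableEq ι] {B : (ι → ℝ) → Matrix R Q ℝ} (h : EntryMap B) :
    EntryMap (fun d => -(B d)ᵀ) := by
  intro r q
  obtain ⟨k, s, hs, hk⟩ := h q r
  refine ⟨k, -s, by rcases hs with h | h <;> rw [h] <;> simp, fun d u u' x y => ?_⟩
  rw [flip_dot, flip_dot, hk d u u' y x]
  ring

lemma exc_measure {ι : Type} [Fintype ι] [DecidableEq ι] [Nonempty Q] [Nonempty R]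
    (a : ι → ℝ) {σ : ℝ} (hσ : 0 < σ) {C : Set (Q → ℝ)} {D : Set (R → ℝ)}
    (hC : IsClosedConvexCone C) (hD : IsClosedConvexCone D) {B : (ι → ℝ) → Matrix R Q ℝ}
    (hBc : Continuous B) (hB : EntryMap B) (q : Q) (r : R) {ε ε' : ℝ} (t : ℝ)
    (hε : ε = 1 ∨ ε = -1) (hε' : ε' = 1 ∨ ε' = -1) :
    gaussPi a σ {d | B d ∈ SA C D q r ε ε' ∩ SB C D q ε t} ≤
      ENNReal.ofReal (2 * (t * Real.sqrt (Fintype.card R) * Real.sqrt (Fintype.card Q)) / σ) := by
  obtain ⟨k, s, hs, hk⟩ := hB q r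
  apply gaussPi_slice_le a hσ _ _ k
  · intro d u u' h1 h2
    have := slice hε hε' (τ := s * (u' - u)) (fun x y => hk d u u' x y) h1 h2
    rw [abs_mul, abs_sub_comm] at this
    rcases hs with h | h <;> rw [h] at this <;> simpa using this
  · exact (((isClosed_SA hD q r ε ε').inter (isClosed_SB hC q ε t)).preimage hBc).measurableSet

/-- The probability that `B` is `t`-close to be ill-posed. -/
theorem ill_measure {ι : Type} [Fintype ι] [DecidableEq ι] [Nonempty Q] [Nonempty R]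
    (a : ι → ℝ) {σ : ℝ} (hσ : 0 < σ) {C : Set (Q → ℝ)} {D : Set (R → ℝ)}
    (hC : IsClosedConvexCone C) (hD : IsClosedConvexCone D) {B : (ι → ℝ) → Matrix R Q ℝ}
    (hBc : Continuous B) (hB : EntryMap B) {t : ℝ} (ht : 0 ≤ t) :
    gaussPi a σ {d | (∃ z ∈ C, z ⬝ᵥ z = 1 ∧ ∀ y ∈ D, y ⬝ᵥ y = 1 → -t ≤ y ⬝ᵥ (B d).mulVec z) ∧
      (∃ y ∈ D, y ⬝ᵥ y = 1 ∧ ∀ x ∈ C, x ⬝ᵥ x = 1 → y ⬝ᵥ (B d).mulVec x ≤ t)} ≤
      ENNReal.ofReal (16 * (Fintype.card R * Fintype.card Q) ^ 2 * t / σ) := by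
  classical
  let sg : Bool → ℝ := fun b => if b then 1 else -1
  have hsg : ∀ b, sg b = 1 ∨ sg b = -1 := by intro b; cases b <;> simp [sg]
  let X : Q × R × Bool × Bool × Bool → Set (ι → ℝ) := fun p =>
    if p.2.2.2.2 then
      {d | B d ∈ SA C D p.1 p.2.1 (sg p.2.2.1) (sg p.2.2.2.1) ∩ SB C D p.1 (sg p.2.2.1) t}
    else
      {d | (-(B d)ᵀ) ∈ SA D C p.2.1 p.1 (sg p.2.2.2.1) (sg p.2.2.1) ∩
        SB D C p.2.1 (sg p.2.2.2.1) t}
  have hbound : ∀ p, gaussPi a σ (X p) ≤ ENNReal.ofReal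
      (2 * (t * Real.sqrt (Fintype.card R) * Real.sqrt (Fintype.card Q)) / σ) := by
    rintro ⟨q, r, b1, b2, b3⟩
    cases b3
    · have := exc_measure a hσ hD hC (B := fun d => -(B d)ᵀ) (by fun_prop) hB.flip r q t (hsg b2)
        (hsg b1)
      have h2 : t * Real.sqrt (Fintype.card R) * Real.sqrt (Fintype.card Q)
          = t * Real.sqrt (Fintype.card Q) * Real.sqrt (Fintype.card R) := by ring
      rw [h2]
      simpa [X] using this
    · have := exc_measure a hσ hC hD hBc hB q r t (hsg b1) (hsg b2)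
      simpa [X] using this
  have hcov : {d | (∃ z ∈ C, z ⬝ᵥ z = 1 ∧ ∀ y ∈ D, y ⬝ᵥ y = 1 → -t ≤ y ⬝ᵥ (B d).mulVec z) ∧
      (∃ y ∈ D, y ⬝ᵥ y = 1 ∧ ∀ x ∈ C, x ⬝ᵥ x = 1 → y ⬝ᵥ (B d).mulVec x ≤ t)} ⊆ ⋃ p, X p := by
    rintro d ⟨hII, hI⟩
    obtain ⟨q, r, ε, ε', hε, hε', h⟩ := cover hC hD hII hI
    have hbool : ∀ e : ℝ, (e = 1 ∨ e = -1) → ∃ b, sg b = e := by
      rintro e (he | he)
      · exact ⟨true, by simp [sg, he]⟩
      · exact ⟨false, by simp [sg, he]⟩
    obtain ⟨b1, hb1⟩ := hbool ε hε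
    obtain ⟨b2, hb2⟩ := hbool ε' hε'
    rw [mem_iUnion]
    rcases h with h | h
    · refine ⟨(q, r, b1, b2, true), ?_⟩
      simp only [X, if_true]
      rw [hb1, hb2]
      exact h
    · refine ⟨(q, r, b1, b2, false), ?_⟩
      simp only [X, Bool.false_eq_true, if_false]
      rw [hb1, hb2]
      exact h
  have hQ1 : (1 : ℝ) ≤ Fintype.card Q := by exact_mod_cast Fintype.card_pos
  have hR1 : (1 : ℝ) ≤ Fintype.card R := by exact_mod_cast Fintype.card_pos
  calc _ ≤ gaussPi a σ (⋃ p, X p) := measure_mono hcov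
    _ ≤ ∑ p, gaussPi a σ (X p) := measure_iUnion_fintype_le _ _
    _ ≤ ∑ _p : Q × R × Bool × Bool × Bool, ENNReal.ofReal
      (2 * (t * Real.sqrt (Fintype.card R) * Real.sqrt (Fintype.card Q)) / σ) :=
        Finset.sum_le_sum fun p _ => hbound p
    _ = ENNReal.ofReal ((Fintype.card Q * Fintype.card R * 8) *
      (2 * (t * Real.sqrt (Fintype.card R) * Real.sqrt (Fintype.card Q)) / σ)) := by
        rw [Finset.sum_const, Finset.card_univ, nsmul_eq_mul]
        rw [ENNReal.ofReal_mul (by positivity)]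
        congr 1
        simp only [Fintype.card_prod, Fintype.card_bool]
        rw [← ENNReal.ofReal_natCast]
        congr 1
        push_cast
        ring
    _ ≤ _ := by
        apply ENNReal.ofReal_le_ofReal
        have h1 : Real.sqrt (Fintype.card R) ≤ Fintype.card R := by
          rw [Real.sqrt_le_left (by positivity)]
          nlinarith
        have h2 : Real.sqrt (Fintype.card Q) ≤ Fintype.card Q := by
          rw [Real.sqrt_le_left (by positivity)]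
          nlinarith
        have h3 : Real.sqrt (Fintype.card R) * Real.sqrt (Fintype.card Q) ≤
          Fintype.card R * Fintype.card Q := mul_le_mul h1 h2 (by positivity) (by positivity)
        have e1 : (Fintype.card Q * Fintype.card R * 8 : ℝ) *
          (2 * (t * Real.sqrt (Fintype.card R) * Real.sqrt (Fintype.card Q)) / σ)
          = (16 * (Fintype.card R * Fintype.card Q) * t / σ) *
            (Real.sqrt (Fintype.card R) * Real.sqrt (Fintype.card Q)) := by ring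
        have e2 : (16 * (Fintype.card R * Fintype.card Q : ℝ) ^ 2 * t / σ)
          = (16 * (Fintype.card R * Fintype.card Q) * t / σ) *
            (Fintype.card R * Fintype.card Q) := by ring
        rw [e1, e2]
        exact mul_le_mul_of_nonneg_left h3 (by positivity)

end Pool.Agent.H836R3
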