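import Pool.Agent.H836R3.Meas

/-!
# The expectation of the logarithm of the condition number
-/

open Set Matrix MeasureTheory ProbabilityTheory
open scoped ENNReal NNReal

namespace Pool.Agent.H836R3

/-- The expectation, in `[-∞, ∞]`, of a random variable with values in `[-∞, ∞]`. -/
noncomputable def expect {Ω : Type} [MeasurableSpace Ω] (μ : Measure Ω) (f : Ω → EReal) : EReal :=
  ((∫⁻ ω, (f ω).toENNReal ∂μ : ℝ≥0∞) : EReal) - ((∫⁻ ω, (-f ω).toENNReal ∂μ : ℝ≥0∞) : EReal)

variable {m n : ℕ}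

lemma le_tsum_indicator {L : ℝ} (hL : 0 ≤ L) (x : ℝ≥0∞) :
    x ≤ ENNReal.ofReal L + ∑' k : ℕ, (if ENNReal.ofReal (L + k) < x then (1 : ℝ≥0∞) else 0) := by
  induction x using ENNReal.recTopCoe with
  | top =>
    have : ∀ k : ℕ, (if ENNReal.ofReal (L + k) < (⊤ : ℝ≥0∞) then (1 : ℝ≥0∞) else 0) = 1 := by
      intro k; simp
    simp only [this]
    rw [ENNReal.tsum_const]
    simp
  | coe r =>
    set N : ℕ := ⌈(r : ℝ) - L⌉₊ with hN
    have h1 : ∑ k ∈ Finset.range N, (if ENNReal.ofReal (L + k) < (r : ℝ≥0∞) then (1 : ℝ≥0∞) else 0)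
        = N := by
      have : ∀ k ∈ Finset.range N,
          (if ENNReal.ofReal (L + k) < (r : ℝ≥0∞) then (1 : ℝ≥0∞) else 0) = 1 := by
        intro k hk
        rw [Finset.mem_range, hN, Nat.lt_ceil] at hk
        rw [if_pos]
        rw [← ENNReal.ofReal_coe_nnreal, ENNReal.ofReal_lt_ofReal_iff_of_nonneg (by positivity)]
        linarith
      rw [Finset.sum_congr rfl this]
      simp
    have h2 : (N : ℝ≥0∞) ≤
        ∑' k : ℕ, (if ENNReal.ofReal (L + k) < (r : ℝ≥0∞) then (1 : ℝ≥0∞) else 0) := by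
      rw [← h1]; exact ENNReal.sum_le_tsum _
    calc (r : ℝ≥0∞) = ENNReal.ofReal r := (ENNReal.ofReal_coe_nnreal).symm
      _ ≤ ENNReal.ofReal (L + N) := by
          apply ENNReal.ofReal_le_ofReal
          have := Nat.le_ceil ((r : ℝ) - L)
          rw [← hN] at this
          linarith
      _ = ENNReal.ofReal L + N := by
          rw [ENNReal.ofReal_add hL (by positivity), ENNReal.ofReal_natCast]
      _ ≤ _ := by gcongr

lemma log_inv_le_of_le {x : ℝ≥0∞} {u : ℝ} (h : ENNReal.ofReal (Real.exp (-u)) ≤ x) :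
    (ENNReal.log x⁻¹).toENNReal ≤ ENNReal.ofReal u := by
  have h1 : x⁻¹ ≤ ENNReal.ofReal (Real.exp u) := by
    have : ENNReal.ofReal (Real.exp u) = (ENNReal.ofReal (Real.exp (-u)))⁻¹ := by
      rw [← ENNReal.ofReal_inv_of_pos (Real.exp_pos _), Real.exp_neg, inv_inv]
    rw [this]
    exact ENNReal.inv_le_inv.2 h
  have h2 : ENNReal.log x⁻¹ ≤ (u : EReal) := by
    refine (ENNReal.log_monotone h1).trans ?_
    rw [ENNReal.log_ofReal_of_pos (Real.exp_pos _), Real.log_exp]
  have h3 := EReal.toENNReal_le_toENNReal h2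
  rwa [EReal.real_coe_toENNReal] at h3

/-- The expectation of the positive part of `log (1 / ρ)`. -/
lemma lintegral_log_rho (hm : 1 ≤ m) (hn : 1 ≤ n) {C₁ : Set (Fin m → ℝ)} {C₂ : Set (Fin n → ℝ)}
    (h1 : IsClosedConvexCone C₁) (h2 : IsClosedConvexCone C₂) (a : Data m n) {σ : ℝ} (hσ : 0 < σ)
    (hσ1 : σ ≤ 1) :
    ∫⁻ d, (ENNReal.log (rho C₁ C₂ d)⁻¹).toENNReal ∂(gaussPi a σ) ≤
      ENNReal.ofReal (Real.log (128 * ((m : ℝ) * n) ^ 2 / σ) + 2) := by
  have hm1 : (1 : ℝ) ≤ m := by exact_mod_cast hm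
  have hn1 : (1 : ℝ) ≤ n := by exact_mod_cast hn
  set Q₀ : ℝ := 128 * ((m : ℝ) * n) ^ 2 / σ with hQ
  have hQ1 : 1 ≤ Q₀ := by
    rw [hQ, le_div_iff₀ hσ]
    have h3 : (1 : ℝ) ≤ (m : ℝ) * n := by nlinarith
    have h4 : (1 : ℝ) ≤ ((m : ℝ) * n) ^ 2 := one_le_pow₀ h3
    nlinarith
  set L := Real.log Q₀ with hLdef
  have hL : 0 ≤ L := Real.log_nonneg hQ1
  have hrm := measurable_rho h1 h2
  have hmeas : ∀ k : ℕ, MeasurableSet {d : Data m n |
      ENNReal.ofReal (L + k) < (ENNReal.log (rho C₁ C₂ d)⁻¹).toENNReal} := by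
    intro k
    have hf : Measurable fun d : Data m n => (ENNReal.log (rho C₁ C₂ d)⁻¹).toENNReal :=
      measurable_ereal_toENNReal.comp (ENNReal.log_monotone.measurable.comp hrm.inv)
    exact measurableSet_lt measurable_const hf
  calc ∫⁻ d, (ENNReal.log (rho C₁ C₂ d)⁻¹).toENNReal ∂(gaussPi a σ)
      ≤ ∫⁻ d, (ENNReal.ofReal L + ∑' k : ℕ, (if ENNReal.ofReal (L + k) <
          (ENNReal.log (rho C₁ C₂ d)⁻¹).toENNReal then (1 : ℝ≥0∞) else 0)) ∂(gaussPi a σ) :=
        lintegral_mono fun d => le_tsum_indicator hL _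
    _ = ENNReal.ofReal L + ∑' k : ℕ, gaussPi a σ {d |
          ENNReal.ofReal (L + k) < (ENNReal.log (rho C₁ C₂ d)⁻¹).toENNReal} := by
        rw [lintegral_add_left measurable_const]
        congr 1
        · simp
        · rw [lintegral_tsum]
          · apply tsum_congr
            intro k
            rw [← lintegral_indicator_one (hmeas k)]
            apply lintegral_congr
            intro d
            simp [Set.indicator_apply]
          · intro k
            exact (Measurable.ite (hmeas k) measurable_const measurable_const).aemeasurable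
    _ ≤ ENNReal.ofReal L + ∑' k : ℕ, ENNReal.ofReal (Real.exp (-1) ^ k) := by
        gcongr with k
        have hsub : {d : Data m n |
            ENNReal.ofReal (L + k) < (ENNReal.log (rho C₁ C₂ d)⁻¹).toENNReal} ⊆
            {d | rho C₁ C₂ d < ENNReal.ofReal (Real.exp (-(L + k)))} := by
          intro d hd
          by_contra hcon
          have hcon' : ENNReal.ofReal (Real.exp (-(L + k))) ≤ rho C₁ C₂ d := not_lt.1 hcon
          have := log_inv_le_of_le hcon'
          exact absurd hd (not_lt.2 this)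
        refine (measure_mono hsub).trans ?_
        refine (rho_tail hm hn h1 h2 a hσ (Real.exp_pos _).le).trans ?_
        apply ENNReal.ofReal_le_ofReal
        have e1 : Real.exp (-(L + k)) = Q₀⁻¹ * Real.exp (-1) ^ k := by
          rw [neg_add, Real.exp_add, Real.exp_neg, hLdef, Real.exp_log (by positivity),
            ← Real.exp_nat_mul]
          congr 2
          ring
        rw [e1]
        have e2 : 128 * ((m : ℝ) * n) ^ 2 * (Q₀⁻¹ * Real.exp (-1) ^ k) / σ
            = Q₀ * Q₀⁻¹ * Real.exp (-1) ^ k := by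
          rw [hQ]; ring
        rw [e2, mul_inv_cancel₀ (by positivity), one_mul]
    _ = ENNReal.ofReal L + ENNReal.ofReal ((1 - Real.exp (-1))⁻¹) := by
        congr 1
        have hlt : Real.exp (-1) < 1 := by
          rw [Real.exp_lt_one_iff]
          norm_num
        rw [← ENNReal.ofReal_tsum_of_nonneg (fun k => by positivity)
          (summable_geometric_of_lt_one (Real.exp_pos _).le hlt),
          tsum_geometric_of_lt_one (Real.exp_pos _).le hlt]
    _ ≤ ENNReal.ofReal L + ENNReal.ofReal 2 := by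
        gcongr
        have h3 : Real.exp (-1) ≤ 1 / 2 := by
          rw [Real.exp_neg, one_div]
          apply inv_anti₀ (by norm_num)
          have := Real.add_one_le_exp (1 : ℝ)
          linarith
        rw [inv_le_comm₀ (by linarith) (by norm_num)]
        linarith
    _ = ENNReal.ofReal (L + 2) := by rw [ENNReal.ofReal_add hL (by norm_num)]

/-- Second moment of a Gaussian. -/
lemma lintegral_sq_gaussian (μ : ℝ) {σ : ℝ} (_hσ : 0 < σ) :
    ∫⁻ x, ENNReal.ofReal (x ^ 2) ∂(gaussianReal μ (Real.toNNReal (σ ^ 2))) =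
      ENNReal.ofReal (μ ^ 2 + σ ^ 2) := by
  have hmem : MemLp (id : ℝ → ℝ) 2 (gaussianReal μ (Real.toNNReal (σ ^ 2))) :=
    memLp_id_gaussianReal 2
  have hvar := variance_eq_sub hmem
  rw [variance_id_gaussianReal] at hvar
  have hint : Integrable (fun x : ℝ => x ^ 2) (gaussianReal μ (Real.toNNReal (σ ^ 2))) := by
    simpa using hmem.integrable_sq
  rw [← ofReal_integral_eq_lintegral_ofReal hint (Filter.Eventually.of_forall fun x => sq_nonneg x)]
  congr 1
  have e1 : ∫ x, id x ∂(gaussianReal μ (Real.toNNReal (σ ^ 2))) = μ := integral_id_gaussianReal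
  rw [e1] at hvar
  have e2 : ∫ x, (id ^ 2 : ℝ → ℝ) x ∂(gaussianReal μ (Real.toNNReal (σ ^ 2)))
      = ∫ x, x ^ 2 ∂(gaussianReal μ (Real.toNNReal (σ ^ 2))) := by
    simp
  rw [e2, Real.coe_toNNReal _ (sq_nonneg σ)] at hvar
  linarith

/-- The expectation of the positive part of the logarithm of the norm. -/
lemma lintegral_log_frob (hm : 1 ≤ m) (hn : 1 ≤ n) (a : Data m n) (ha : frob a ≤ 1) {σ : ℝ}
    (hσ : 0 < σ) (hσ1 : σ ≤ 1) :
    ∫⁻ d, (ENNReal.log (ENNReal.ofReal (frob d))).toENNReal ∂(gaussPi a σ) ≤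
      ENNReal.ofReal (Real.log (2 + 3 * (m * n)) / 2 + 1 / 2) := by
  have hm1 : (1 : ℝ) ≤ m := by exact_mod_cast hm
  have hn1 : (1 : ℝ) ≤ n := by exact_mod_cast hn
  set w : ℝ := 2 + 3 * ((m : ℝ) * n) with hw
  have hwpos : 2 ≤ w := by rw [hw]; nlinarith
  have hlogw : 0 ≤ Real.log w := Real.log_nonneg (by linarith)
  have hpt : ∀ d : Data m n, (ENNReal.log (ENNReal.ofReal (frob d))).toENNReal ≤
      ENNReal.ofReal (Real.log w / 2) + (ENNReal.ofReal (1 / (2 * w)) +
        ∑ k, ENNReal.ofReal (1 / (2 * w)) * ENNReal.ofReal (d k ^ 2)) := by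
    intro d
    rcases (frob_nonneg d).lt_or_eq with h | h
    · rw [ENNReal.log_ofReal_of_pos h, EReal.real_coe_toENNReal]
      have e1 : ∑ k, ENNReal.ofReal (1 / (2 * w)) * ENNReal.ofReal (d k ^ 2)
          = ENNReal.ofReal (1 / (2 * w) * frob d ^ 2) := by
        rw [← Finset.mul_sum, ← ENNReal.ofReal_sum_of_nonneg fun k _ => sq_nonneg (d k),
          ← frob_sq, ← ENNReal.ofReal_mul (by positivity)]
      rw [e1, ← ENNReal.ofReal_add (by positivity) (by positivity),
        ← ENNReal.ofReal_add (by positivity) (by positivity)]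
      apply ENNReal.ofReal_le_ofReal
      have h3 : Real.log (frob d) ≤ Real.log (1 + frob d ^ 2) / 2 := by
        have : Real.log (frob d ^ 2) ≤ Real.log (1 + frob d ^ 2) :=
          Real.log_le_log (by positivity) (by linarith)
        rw [Real.log_pow] at this
        push_cast at this
        linarith
      have h4 : Real.log (1 + frob d ^ 2) ≤ Real.log w + ((1 + frob d ^ 2) / w - 1) := by
        have h5 : Real.log ((1 + frob d ^ 2) / w) ≤ (1 + frob d ^ 2) / w - 1 :=
          Real.log_le_sub_one_of_pos (by positivity)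
        rw [Real.log_div (by positivity) (by positivity)] at h5
        linarith
      have h6 : 1 / (2 * w) + 1 / (2 * w) * frob d ^ 2 = (1 + frob d ^ 2) / w / 2 := by
        field_simp
      rw [h6]
      linarith
    · rw [← h]
      simp
  have hmk : ∀ k : (Fin m × Fin n) ⊕ (Fin m ⊕ Fin n),
      ∫⁻ d, ENNReal.ofReal ((d k) ^ 2) ∂(gaussPi a σ) = ENNReal.ofReal (a k ^ 2 + σ ^ 2) := by
    intro k
    rw [← lintegral_sq_gaussian (a k) hσ]
    have hmp : MeasurePreserving (fun d : Data m n => d k) (gaussPi a σ)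
        (gaussianReal (a k) (Real.toNNReal (σ ^ 2))) := by
      unfold gaussPi
      exact measurePreserving_eval _ k
    exact hmp.lintegral_comp (f := fun x : ℝ => ENNReal.ofReal (x ^ 2))
      (by fun_prop)
  calc ∫⁻ d, (ENNReal.log (ENNReal.ofReal (frob d))).toENNReal ∂(gaussPi a σ)
      ≤ ∫⁻ d, (ENNReal.ofReal (Real.log w / 2) + (ENNReal.ofReal (1 / (2 * w)) +
        ∑ k, ENNReal.ofReal (1 / (2 * w)) * ENNReal.ofReal (d k ^ 2))) ∂(gaussPi a σ) :=
        lintegral_mono hpt
    _ = ENNReal.ofReal (Real.log w / 2) + (ENNReal.ofReal (1 / (2 * w)) +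
        ∑ k, ENNReal.ofReal (1 / (2 * w)) * ENNReal.ofReal (a k ^ 2 + σ ^ 2)) := by
        rw [lintegral_add_left measurable_const, lintegral_add_left measurable_const,
          lintegral_finsetSum]
        · congr 1
          · simp
          · congr 1
            · simp
            · apply Finset.sum_congr rfl
              intro k _
              rw [lintegral_const_mul _ (by fun_prop), hmk k]
        · intro k _
          fun_prop
    _ = ENNReal.ofReal (Real.log w / 2 + (1 / (2 * w) + 1 / (2 * w) *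
          ∑ k, (a k ^ 2 + σ ^ 2))) := by
        rw [← Finset.mul_sum, ← ENNReal.ofReal_sum_of_nonneg fun k _ => by positivity,
          ← ENNReal.ofReal_mul (by positivity), ← ENNReal.ofReal_add (by positivity) (by positivity),
          ← ENNReal.ofReal_add (by positivity) (by positivity)]
    _ ≤ _ := by
        apply ENNReal.ofReal_le_ofReal
        have hsum : ∑ k, (a k ^ 2 + σ ^ 2) ≤ 1 + 3 * ((m : ℝ) * n) := by
          rw [Finset.sum_add_distrib, ← frob_sq, Finset.sum_const, Finset.card_univ, nsmul_eq_mul]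
          have h3 : frob a ^ 2 ≤ 1 := by
            have := frob_nonneg a
            nlinarith
          have h4 : σ ^ 2 ≤ 1 := by nlinarith
          have h5 : (Fintype.card ((Fin m × Fin n) ⊕ (Fin m ⊕ Fin n)) : ℝ) = m * n + (m + n) := by
            simp
          rw [h5]
          have h6 : ((m : ℝ) * n + (m + n)) ≤ 3 * (m * n) := by nlinarith
          have h7 : ((m : ℝ) * n + (m + n)) * σ ^ 2 ≤ ((m : ℝ) * n + (m + n)) * 1 :=
            mul_le_mul_of_nonneg_left h4 (by positivity)
          linarith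
        have h8 : 1 / (2 * w) + 1 / (2 * w) * ∑ k, (a k ^ 2 + σ ^ 2) ≤ 1 / 2 := by
          have h9 : 1 / (2 * w) * ∑ k, (a k ^ 2 + σ ^ 2) ≤ 1 / (2 * w) * (w - 1) :=
            mul_le_mul_of_nonneg_left (by rw [hw]; linarith) (by positivity)
          have h10 : 1 / (2 * w) + 1 / (2 * w) * (w - 1) = 1 / 2 := by
            field_simp
            ring
          linarith
        linarith

/-- The expectation of the positive part of `log C`. -/
theorem lintegral_log_condNum (hm : 1 ≤ m) (hn : 1 ≤ n) {C₁ : Set (Fin m → ℝ)}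
    {C₂ : Set (Fin n → ℝ)} (h1 : IsClosedConvexCone C₁) (h2 : IsClosedConvexCone C₂)
    (a : Data m n) (ha : frob a ≤ 1) {σ : ℝ} (hσ : 0 < σ) (hσ1 : σ ≤ 1) :
    ∫⁻ d, (ENNReal.log (condNum C₁ C₂ d)).toENNReal ∂(gaussPi a σ) ≤
      ENNReal.ofReal (9 * (1 + Real.log (m * n / σ))) := by
  have hm1 : (1 : ℝ) ≤ m := by exact_mod_cast hm
  have hn1 : (1 : ℝ) ≤ n := by exact_mod_cast hn
  have hmn : (1 : ℝ) ≤ (m : ℝ) * n := by nlinarith
  have hpt : ∀ d : Data m n, (ENNReal.log (condNum C₁ C₂ d)).toENNReal ≤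
      (ENNReal.log (ENNReal.ofReal (frob d))).toENNReal +
        (ENNReal.log (rho C₁ C₂ d)⁻¹).toENNReal := by
    intro d
    unfold condNum
    split_ifs with h
    · rw [h]; simp
    · rw [div_eq_mul_inv, ENNReal.log_mul_add]
      exact EReal.toENNReal_add_le
  have hfm : Measurable fun d : Data m n =>
      (ENNReal.log (ENNReal.ofReal (frob d))).toENNReal :=
    measurable_ereal_toENNReal.comp (ENNReal.log_monotone.measurable.comp
      (ENNReal.measurable_ofReal.comp continuous_frob.measurable))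
  calc ∫⁻ d, (ENNReal.log (condNum C₁ C₂ d)).toENNReal ∂(gaussPi a σ)
      ≤ ∫⁻ d, ((ENNReal.log (ENNReal.ofReal (frob d))).toENNReal +
        (ENNReal.log (rho C₁ C₂ d)⁻¹).toENNReal) ∂(gaussPi a σ) := lintegral_mono hpt
    _ = _ := lintegral_add_left hfm _
    _ ≤ _ := add_le_add (lintegral_log_frob hm hn a ha hσ hσ1)
        (lintegral_log_rho hm hn h1 h2 a hσ hσ1)
    _ ≤ _ := by
        have hlog0 : 0 ≤ Real.log (m * n / σ) := by
          apply Real.log_nonneg
          rw [le_div_iff₀ hσ]; linarith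
        have hlogmn : 0 ≤ Real.log ((m : ℝ) * n) := Real.log_nonneg hmn
        have hlogσ : Real.log σ ≤ 0 := Real.log_nonpos hσ.le hσ1
        have hsplit : Real.log (m * n / σ) = Real.log ((m : ℝ) * n) - Real.log σ :=
          Real.log_div (by positivity) (by positivity)
        have hQ : Real.log (128 * ((m : ℝ) * n) ^ 2 / σ)
            = Real.log 128 + 2 * Real.log ((m : ℝ) * n) - Real.log σ := by
          rw [Real.log_div (by positivity) (by positivity), Real.log_mul (by norm_num)
            (by positivity), Real.log_pow]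
          norm_num
        have h128 : Real.log 128 ≤ 5 := by
          have : (128 : ℝ) = 2 ^ (7 : ℕ) := by norm_num
          rw [this, Real.log_pow]
          have := Real.log_two_lt_d9
          push_cast
          linarith
        have h5 : Real.log (2 + 3 * ((m : ℝ) * n)) ≤ 3 + Real.log ((m : ℝ) * n) := by
          have h6 : Real.log (2 + 3 * ((m : ℝ) * n)) ≤ Real.log (5 * ((m : ℝ) * n)) :=
            Real.log_le_log (by positivity) (by linarith)
          rw [Real.log_mul (by norm_num) (by positivity)] at h6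
          have h7 : Real.log 5 ≤ 3 := by
            have h8 : Real.log 5 ≤ Real.log 8 := Real.log_le_log (by norm_num) (by norm_num)
            have h9 : (8 : ℝ) = 2 ^ (3 : ℕ) := by norm_num
            rw [h9, Real.log_pow] at h8
            have := Real.log_two_lt_d9
            push_cast at h8
            linarith
          linarith
        have hnn1 : 0 ≤ Real.log (2 + 3 * ((m : ℝ) * n)) / 2 + 1 / 2 := by
          have : 0 ≤ Real.log (2 + 3 * ((m : ℝ) * n)) := Real.log_nonneg (by linarith)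
          linarith
        have hnn2 : 0 ≤ Real.log (128 * ((m : ℝ) * n) ^ 2 / σ) + 2 := by
          rw [hQ]
          have : 0 ≤ Real.log 128 := Real.log_nonneg (by norm_num)
          linarith
        rw [← ENNReal.ofReal_add hnn1 hnn2]
        apply ENNReal.ofReal_le_ofReal
        rw [hQ, hsplit]
        linarith

/-- **Main theorem**: the expectation of `log C` is `O(log (m n / σ))`. -/
theorem main : ∃ K : ℝ, ∀ m n : ℕ, 1 ≤ m → 1 ≤ n → ∀ (C₁ : Set (Fin m → ℝ)) (C₂ : Set (Fin n → ℝ)),
    IsClosedConvexCone C₁ → IsClosedConvexCone C₂ → ∀ a : Data m n, frob a ≤ 1 →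
      ∀ σ : ℝ, 0 < σ → σ ≤ 1 →
        Measurable (condNum C₁ C₂) ∧
        ∫⁻ d, (ENNReal.log (condNum C₁ C₂ d)).toENNReal ∂(gaussPi a σ) ≤
          ENNReal.ofReal (K * (1 + Real.log (m * n / σ))) ∧
        expect (gaussPi a σ) (fun d => ENNReal.log (condNum C₁ C₂ d)) ≤
          ((K * (1 + Real.log (m * n / σ)) : ℝ) : EReal) := by
  refine ⟨9, fun m n hm hn C₁ C₂ h1 h2 a ha σ hσ hσ1 => ?_⟩
  have hmain := lintegral_log_condNum hm hn h1 h2 a ha hσ hσ1
  refine ⟨measurable_condNum h1 h2, hmain, ?_⟩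
  have hm1 : (1 : ℝ) ≤ m := by exact_mod_cast hm
  have hn1 : (1 : ℝ) ≤ n := by exact_mod_cast hn
  have hnn : 0 ≤ 9 * (1 + Real.log (m * n / σ)) := by
    have : 0 ≤ Real.log (m * n / σ) := by
      apply Real.log_nonneg
      rw [le_div_iff₀ hσ]; nlinarith
    linarith
  unfold expect
  calc _ ≤ ((∫⁻ d, (ENNReal.log (condNum C₁ C₂ d)).toENNReal ∂(gaussPi a σ) : ℝ≥0∞) : EReal) - 0 :=
        EReal.sub_le_sub le_rfl (EReal.coe_ennreal_nonneg _)
    _ = ((∫⁻ d, (ENNReal.log (condNum C₁ C₂ d)).toENNReal ∂(gaussPi a σ) : ℝ≥0∞) : EReal) :=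
        sub_zero _
    _ ≤ ((ENNReal.ofReal (9 * (1 + Real.log (m * n / σ))) : ℝ≥0∞) : EReal) :=
        EReal.coe_ennreal_le_coe_ennreal_iff.2 hmain
    _ = _ := by
        rw [EReal.coe_ennreal_ofReal, max_eq_left hnn]

end Pool.Agent.H836R3
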