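import Pool.Agent.H836R3.Prog

/-!
# Measurability of the distance to ill-posedness
-/

open Set Matrix MeasureTheory
open scoped ENNReal NNReal

namespace Pool.Agent.H836R3

variable {m n : ℕ}

lemma frob_eq_norm (d : Data m n) :
    frob d = ‖(WithLp.toLp 2 d : EuclideanSpace ℝ ((Fin m × Fin n) ⊕ (Fin m ⊕ Fin n)))‖ := by
  rw [EuclideanSpace.norm_eq]
  simp [frob]

lemma frob_add_le (d e : Data m n) : frob (d + e) ≤ frob d + frob e := by
  rw [frob_eq_norm, frob_eq_norm, frob_eq_norm, WithLp.toLp_add]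
  exact norm_add_le _ _

lemma continuous_frob : Continuous (frob : Data m n → ℝ) := by
  unfold frob
  fun_prop

lemma measurableSet_feas {ι Q R : Type} [Fintype ι] [Fintype Q] [Fintype R] {K₁ : Set (R → ℝ)}
    {K₂ : Set (Q → ℝ)} (h1 : IsClosed K₁) (h2 : IsClosed K₂) {A : (ι → ℝ) → Matrix R Q ℝ}
    {b : (ι → ℝ) → R → ℝ} (hA : Continuous A) (hb : Continuous b) :
    MeasurableSet {d | Feas K₁ K₂ (A d) (b d)} := by
  have : {d | Feas K₁ K₂ (A d) (b d)} = ⋃ N : ℕ, {d | ∃ x ∈ Metric.closedBall (0 : Q → ℝ) N,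
      (d, x) ∈ {p : (ι → ℝ) × (Q → ℝ) | p.2 ∈ K₂ ∧ (A p.1).mulVec p.2 - b p.1 ∈ K₁}} := by
    ext d
    simp only [Feas, mem_iUnion]
    constructor
    · rintro ⟨x, hx, hx1⟩
      obtain ⟨N, hN⟩ := exists_nat_ge ‖x‖
      exact ⟨N, x, mem_closedBall_zero_iff.2 hN, hx, hx1⟩
    · rintro ⟨N, x, _, hx, hx1⟩
      exact ⟨x, hx, hx1⟩
  rw [this]
  refine MeasurableSet.iUnion fun N => IsClosed.measurableSet ?_
  apply isClosed_proj (isCompact_closedBall _ _)
  exact (h2.preimage continuous_snd).and (h1.preimage (by fun_prop))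

/-- Stability radius inside a set. -/
noncomputable def rhoS (S : Set (Data m n)) (d : Data m n) : ℝ≥0∞ :=
  ⨆ (δ : ℝ≥0) (_ : ∀ e : Data m n, frob e ≤ δ → d + e ∈ S), (δ : ℝ≥0∞)

lemma isOpen_rhoS (S : Set (Data m n)) (a : ℝ≥0∞) : IsOpen {d | a < rhoS S d} := by
  rw [isOpen_iff_mem_nhds]
  intro d hd
  have hd' : a < rhoS S d := hd
  unfold rhoS at hd'
  rw [lt_iSup_iff] at hd'
  obtain ⟨δ, hδ⟩ := hd'
  rw [lt_iSup_iff] at hδ
  obtain ⟨hS, hlt⟩ := hδ
  obtain ⟨δ', h1, h2⟩ := ENNReal.lt_iff_exists_nnreal_btwn.1 hlt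
  have h2' : δ' < δ := by exact_mod_cast h2
  have hη : (0 : ℝ) < δ - δ' := by
    have : (δ' : ℝ) < δ := by exact_mod_cast h2'
    linarith
  have hopen : IsOpen {d' : Data m n | frob (d' - d) < δ - δ'} :=
    isOpen_lt (continuous_frob.comp (by fun_prop)) continuous_const
  have hmem : d ∈ {d' : Data m n | frob (d' - d) < δ - δ'} := by
    have : frob (d - d) = 0 := by simp [frob]
    show frob (d - d) < δ - δ'
    rw [this]; exact hη
  filter_upwards [hopen.mem_nhds hmem] with d' hd'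
  refine lt_of_lt_of_le h1 (le_iSup₂_of_le δ' ?_ le_rfl)
  intro e he
  have h3 : frob (e + (d' - d)) ≤ δ := by
    have h4 := frob_add_le e (d' - d)
    have h5 : frob (d' - d) < δ - δ' := hd'
    linarith
  have h6 := hS _ h3
  have h7 : d + (e + (d' - d)) = d' + e := by abel
  rwa [h7] at h6

/-- The data with given feasibility statuses. -/
def stat (C₁ : Set (Fin m → ℝ)) (C₂ : Set (Fin n → ℝ)) (p : Prop × Prop) : Set (Data m n) :=
  {d | (PrimalFeasible C₁ C₂ d ↔ p.1) ∧ (DualFeasible C₁ C₂ d ↔ p.2)}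

lemma measurableSet_primal {C₁ : Set (Fin m → ℝ)} {C₂ : Set (Fin n → ℝ)}
    (h1 : IsClosedConvexCone C₁) (h2 : IsClosedConvexCone C₂) :
    MeasurableSet {d | PrimalFeasible C₁ C₂ d} := by
  apply measurableSet_feas h1.closed h2.closed
  · apply continuous_matrix
    intro i j
    simp only [matA, Matrix.of_apply]
    fun_prop
  · unfold vecB
    fun_prop

lemma measurableSet_dual {C₁ : Set (Fin m → ℝ)} {C₂ : Set (Fin n → ℝ)} :
    MeasurableSet {d | DualFeasible C₁ C₂ d} := by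
  simp only [dual_iff]
  apply measurableSet_feas (isClosedConvexCone_dualCone C₂).closed
    (isClosedConvexCone_dualCone C₁).closed
  · apply continuous_matrix
    intro i j
    simp only [matA, Matrix.of_apply, Matrix.neg_apply, Matrix.transpose_apply]
    fun_prop
  · unfold vecC
    fun_prop

lemma measurableSet_stat {C₁ : Set (Fin m → ℝ)} {C₂ : Set (Fin n → ℝ)}
    (h1 : IsClosedConvexCone C₁) (h2 : IsClosedConvexCone C₂) (p : Prop × Prop) :
    MeasurableSet (stat C₁ C₂ p) := by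
  have hP := measurableSet_primal h1 h2
  have hD := measurableSet_dual (C₁ := C₁) (C₂ := C₂)
  obtain ⟨p1, p2⟩ := p
  have e1 : MeasurableSet {d | PrimalFeasible C₁ C₂ d ↔ p1} := by
    by_cases h : p1
    · simpa [h] using hP
    · have : {d : Data m n | PrimalFeasible C₁ C₂ d ↔ p1} = {d | PrimalFeasible C₁ C₂ d}ᶜ := by
        ext d; simp [h]
      rw [this]; exact hP.compl
  have e2 : MeasurableSet {d | DualFeasible C₁ C₂ d ↔ p2} := by
    by_cases h : p2
    · simpa [h] using hD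
    · have : {d : Data m n | DualFeasible C₁ C₂ d ↔ p2} = {d | DualFeasible C₁ C₂ d}ᶜ := by
        ext d; simp [h]
      rw [this]; exact hD.compl
  exact e1.inter e2

lemma rho_eq_rhoS (C₁ : Set (Fin m → ℝ)) (C₂ : Set (Fin n → ℝ)) {p : Prop × Prop}
    {d : Data m n} (hd : d ∈ stat C₁ C₂ p) : rho C₁ C₂ d = rhoS (stat C₁ C₂ p) d := by
  unfold rho rhoS
  apply iSup_congr
  intro δ
  apply iSup_congr_Prop _ (fun _ => rfl)
  obtain ⟨h1, h2⟩ := hd
  unfold StableUpTo stat
  constructor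
  · intro h e he
    exact ⟨(h e he).1.trans h1, (h e he).2.trans h2⟩
  · intro h e he
    exact ⟨(h e he).1.trans h1.symm, (h e he).2.trans h2.symm⟩

theorem measurable_rho {C₁ : Set (Fin m → ℝ)} {C₂ : Set (Fin n → ℝ)}
    (h1 : IsClosedConvexCone C₁) (h2 : IsClosedConvexCone C₂) : Measurable (rho C₁ C₂) := by
  apply measurable_of_Ioi
  intro a
  let P : Bool × Bool → Prop × Prop := fun b => (b.1 = true, b.2 = true)
  have : rho C₁ C₂ ⁻¹' Ioi a
      = ⋃ b : Bool × Bool, stat C₁ C₂ (P b) ∩ {d | a < rhoS (stat C₁ C₂ (P b)) d} := by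
    ext d
    simp only [mem_preimage, mem_Ioi, mem_iUnion]
    constructor
    · intro h
      classical
      refine ⟨(decide (PrimalFeasible C₁ C₂ d), decide (DualFeasible C₁ C₂ d)), ?_⟩
      have hst : d ∈ stat C₁ C₂
          (P (decide (PrimalFeasible C₁ C₂ d), decide (DualFeasible C₁ C₂ d))) := by
        simp [stat, P]
      refine ⟨hst, ?_⟩
      show a < rhoS _ d
      rw [← rho_eq_rhoS C₁ C₂ hst]
      exact h
    · rintro ⟨b, hst, h⟩
      rw [rho_eq_rhoS C₁ C₂ hst]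
      exact h
  rw [this]
  exact MeasurableSet.iUnion fun b =>
    (measurableSet_stat h1 h2 _).inter (isOpen_rhoS _ a).measurableSet

theorem measurable_condNum {C₁ : Set (Fin m → ℝ)} {C₂ : Set (Fin n → ℝ)}
    (h1 : IsClosedConvexCone C₁) (h2 : IsClosedConvexCone C₂) : Measurable (condNum C₁ C₂) := by
  have hr := measurable_rho h1 h2
  unfold condNum
  apply Measurable.ite (hr (measurableSet_singleton 0)) measurable_const
  exact (ENNReal.measurable_ofReal.comp continuous_frob.measurable).div hr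

end Pool.Agent.H836R3
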