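import Pool.Agent.H836R3.Feas

/-!
# Conic programs, distance to ill-posedness and the tail bound
-/

open Set Matrix MeasureTheory
open scoped ENNReal NNReal

namespace Pool.Agent.H836R3

/-- The data `(A, b, c)` of a conic program with `A ∈ ℝ^{m × n}`, `b ∈ ℝ^m`, `c ∈ ℝ^n`: the family of
all `mn + m + n` entries. -/
abbrev Data (m n : ℕ) : Type := (Fin m × Fin n) ⊕ (Fin m ⊕ Fin n) → ℝ

/-- The matrix `A`. -/
def matA {m n : ℕ} (d : Data m n) : Matrix (Fin m) (Fin n) ℝ :=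
  Matrix.of fun i j => d (Sum.inl (i, j))

/-- The vector `b`. -/
def vecB {m n : ℕ} (d : Data m n) : Fin m → ℝ := fun i => d (Sum.inr (Sum.inl i))

/-- The vector `c`. -/
def vecC {m n : ℕ} (d : Data m n) : Fin n → ℝ := fun j => d (Sum.inr (Sum.inr j))

/-- The Frobenius norm of all entries of `(A, b, c)` taken together. -/
noncomputable def frob {m n : ℕ} (d : Data m n) : ℝ := Real.sqrt (∑ k, d k ^ 2)

/-- Feasibility of (P): there is `x ∈ C₂` with `A x - b ∈ C₁`. -/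
def PrimalFeasible {m n : ℕ} (C₁ : Set (Fin m → ℝ)) (C₂ : Set (Fin n → ℝ)) (d : Data m n) :
    Prop :=
  ∃ x ∈ C₂, (matA d).mulVec x - vecB d ∈ C₁

/-- Feasibility of (D): there is `y ∈ C₁*` with `c - Aᵀ y ∈ C₂*`. -/
def DualFeasible {m n : ℕ} (C₁ : Set (Fin m → ℝ)) (C₂ : Set (Fin n → ℝ)) (d : Data m n) :
    Prop :=
  ∃ y ∈ dualCone C₁, vecC d - (matA d)ᵀ.mulVec y ∈ dualCone C₂

/-- Every perturbation of Frobenius norm at most `δ` leaves the feasibility status of (P) and of (D)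
unchanged. -/
def StableUpTo {m n : ℕ} (C₁ : Set (Fin m → ℝ)) (C₂ : Set (Fin n → ℝ)) (d : Data m n) (δ : ℝ≥0) :
    Prop :=
  ∀ e : Data m n, frob e ≤ δ →
    ((PrimalFeasible C₁ C₂ (d + e) ↔ PrimalFeasible C₁ C₂ d) ∧
      (DualFeasible C₁ C₂ (d + e) ↔ DualFeasible C₁ C₂ d))

/-- The distance to ill-posedness `ρ(A, b, c)`. -/
noncomputable def rho {m n : ℕ} (C₁ : Set (Fin m → ℝ)) (C₂ : Set (Fin n → ℝ)) (d : Data m n) :
    ℝ≥0∞ :=
  ⨆ (δ : ℝ≥0) (_ : StableUpTo C₁ C₂ d δ), (δ : ℝ≥0∞)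

/-- The condition number `C(A, b, c) = ‖A, b, c‖_F / ρ(A, b, c)`, taken as `∞` when `ρ = 0`. -/
noncomputable def condNum {m n : ℕ} (C₁ : Set (Fin m → ℝ)) (C₂ : Set (Fin n → ℝ))
    (d : Data m n) : ℝ≥0∞ :=
  if rho C₁ C₂ d = 0 then ⊤ else ENNReal.ofReal (frob d) / rho C₁ C₂ d

variable {m n : ℕ}

lemma frob_sq (d : Data m n) : frob d ^ 2 = ∑ k, d k ^ 2 :=
  Real.sq_sqrt (Finset.sum_nonneg fun k _ => sq_nonneg (d k))

lemma frob_nonneg (d : Data m n) : 0 ≤ frob d := Real.sqrt_nonneg _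

lemma sum_data (f : (Fin m × Fin n) ⊕ (Fin m ⊕ Fin n) → ℝ) :
    ∑ k, f k = (∑ i, ∑ j, f (Sum.inl (i, j))) + ((∑ i, f (Sum.inr (Sum.inl i))) +
      ∑ j, f (Sum.inr (Sum.inr j))) := by
  rw [Fintype.sum_sum_type, Fintype.sum_sum_type, Fintype.sum_prod_type]

/-- The homogenised primal matrix. -/
def matP (d : Data m n) : Matrix (Fin m) (Option (Fin n)) ℝ := homog (matA d) (vecB d)

/-- The homogenised dual matrix. -/
def matD (d : Data m n) : Matrix (Fin n) (Option (Fin m)) ℝ := homog (-(matA d)ᵀ) (-vecC d)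

lemma primal_iff (C₁ : Set (Fin m → ℝ)) (C₂ : Set (Fin n → ℝ)) (d : Data m n) :
    PrimalFeasible C₁ C₂ d ↔ Feas C₁ C₂ (matA d) (vecB d) := Iff.rfl

lemma dual_iff (C₁ : Set (Fin m → ℝ)) (C₂ : Set (Fin n → ℝ)) (d : Data m n) :
    DualFeasible C₁ C₂ d ↔ Feas (dualCone C₂) (dualCone C₁) (-(matA d)ᵀ) (-vecC d) := by
  unfold DualFeasible Feas
  have : ∀ y : Fin m → ℝ, vecC d - (matA d)ᵀ.mulVec y = (-(matA d)ᵀ).mulVec y - -vecC d := by
    intro y
    rw [neg_mulVec]; abel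
  simp only [this]

lemma continuous_matP : Continuous (matP : Data m n → Matrix (Fin m) (Option (Fin n)) ℝ) := by
  apply continuous_matrix
  intro r o
  cases o <;> simp only [matP, homog, matA, vecB, Matrix.of_apply] <;> fun_prop

lemma continuous_matD : Continuous (matD : Data m n → Matrix (Fin n) (Option (Fin m)) ℝ) := by
  apply continuous_matrix
  intro r o
  cases o <;> simp only [matD, homog, matA, vecC, Matrix.of_apply, Matrix.neg_apply,
    Matrix.transpose_apply, Pi.neg_apply] <;> fun_prop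

lemma entryMap_matP : EntryMap (matP : Data m n → Matrix (Fin m) (Option (Fin n)) ℝ) := by
  intro o r
  cases o with
  | none =>
    refine ⟨Sum.inr (Sum.inl r), -1, Or.inr rfl, fun d u u' x y => ?_⟩
    apply dot_entry
    intro r' o'
    cases o' with
    | none =>
      by_cases h : r' = r
      · subst h
        simp [matP, homog, vecB]
        ring
      · simp [matP, homog, vecB, h]
    | some q' => simp [matP, homog, matA]
  | some q =>
    refine ⟨Sum.inl (r, q), 1, Or.inl rfl, fun d u u' x y => ?_⟩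
    apply dot_entry
    intro r' o'
    cases o' with
    | none => simp [matP, homog, vecB]
    | some q' =>
      by_cases h : r' = r ∧ q' = q
      · obtain ⟨rfl, rfl⟩ := h
        simp [matP, homog, matA]
      · have h2 : ((r', q') : Fin m × Fin n) ≠ (r, q) := by
          intro h3
          rw [Prod.mk.injEq] at h3
          exact h h3
        have h3 : ¬ (r' = r ∧ (some q' : Option (Fin n)) = some q) := by
          simpa using h
        rw [if_neg h3]
        simp [matP, homog, matA, Function.update_of_ne h2]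

lemma entryMap_matD : EntryMap (matD : Data m n → Matrix (Fin n) (Option (Fin m)) ℝ) := by
  intro o r
  cases o with
  | none =>
    refine ⟨Sum.inr (Sum.inr r), 1, Or.inl rfl, fun d u u' x y => ?_⟩
    apply dot_entry
    intro r' o'
    cases o' with
    | none =>
      by_cases h : r' = r
      · subst h
        simp [matD, homog, vecC]
      · simp [matD, homog, vecC, h]
    | some q' => simp [matD, homog, matA]
  | some q =>
    refine ⟨Sum.inl (q, r), -1, Or.inr rfl, fun d u u' x y => ?_⟩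
    apply dot_entry
    intro r' o'
    cases o' with
    | none => simp [matD, homog, vecC]
    | some q' =>
      by_cases h : r' = r ∧ q' = q
      · obtain ⟨rfl, rfl⟩ := h
        simp [matD, homog, matA]
        ring
      · have h2 : ((q', r') : Fin m × Fin n) ≠ (q, r) := by
          intro h3
          rw [Prod.mk.injEq] at h3
          exact h ⟨h3.2, h3.1⟩
        have h3 : ¬ (r' = r ∧ (some q' : Option (Fin m)) = some q) := by
          simpa using h
        rw [if_neg h3]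
        simp [matD, homog, matA, Function.update_of_ne h2]

/-- A perturbation of Frobenius norm at most `t` that changes the primal status. -/
lemma primal_change {C₁ : Set (Fin m → ℝ)} {C₂ : Set (Fin n → ℝ)}
    (h1 : IsClosedConvexCone C₁) (h2 : IsClosedConvexCone C₂) {d e : Data m n} {t : ℝ} (ht : 0 ≤ t)
    (he : frob e ≤ t) (h : ¬ (PrimalFeasible C₁ C₂ (d + e) ↔ PrimalFeasible C₁ C₂ d)) :
    (∃ z ∈ coneUp C₂, z ⬝ᵥ z = 1 ∧ ∀ y ∈ dualCone C₁, y ⬝ᵥ y = 1 →
        -t ≤ y ⬝ᵥ (matP d).mulVec z) ∧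
      (∃ y ∈ dualCone C₁, y ⬝ᵥ y = 1 ∧ ∀ x ∈ coneUp C₂, x ⬝ᵥ x = 1 →
        y ⬝ᵥ (matP d).mulVec x ≤ t) := by
  refine change_ill h1 h2 ht ?_ h
  have h3 : frob e ^ 2 ≤ t ^ 2 := pow_le_pow_left₀ (frob_nonneg e) he 2
  rw [frob_sq, sum_data (fun k => e k ^ 2)] at h3
  have h4 : ∑ r : Fin m, ((∑ q, (matA d r q - matA (d + e) r q) ^ 2) +
      (vecB d r - vecB (d + e) r) ^ 2) = (∑ i, ∑ j, e (Sum.inl (i, j)) ^ 2) +
        ∑ i, e (Sum.inr (Sum.inl i)) ^ 2 := by
    rw [← Finset.sum_add_distrib]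
    apply Finset.sum_congr rfl
    intro r _
    simp [matA, vecB]
  rw [h4]
  have h5 : 0 ≤ ∑ j : Fin n, e (Sum.inr (Sum.inr j)) ^ 2 :=
    Finset.sum_nonneg fun _ _ => sq_nonneg _
  linarith

/-- A perturbation of Frobenius norm at most `t` that changes the dual status. -/
lemma dual_change {C₁ : Set (Fin m → ℝ)} {C₂ : Set (Fin n → ℝ)}
    {d e : Data m n} {t : ℝ} (ht : 0 ≤ t)
    (he : frob e ≤ t) (h : ¬ (DualFeasible C₁ C₂ (d + e) ↔ DualFeasible C₁ C₂ d)) :
    (∃ z ∈ coneUp (dualCone C₁), z ⬝ᵥ z = 1 ∧ ∀ y ∈ dualCone (dualCone C₂), y ⬝ᵥ y = 1 →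
        -t ≤ y ⬝ᵥ (matD d).mulVec z) ∧
      (∃ y ∈ dualCone (dualCone C₂), y ⬝ᵥ y = 1 ∧ ∀ x ∈ coneUp (dualCone C₁), x ⬝ᵥ x = 1 →
        y ⬝ᵥ (matD d).mulVec x ≤ t) := by
  rw [dual_iff, dual_iff] at h
  refine change_ill (isClosedConvexCone_dualCone C₂) (isClosedConvexCone_dualCone C₁) ht ?_ h
  have h3 : frob e ^ 2 ≤ t ^ 2 := pow_le_pow_left₀ (frob_nonneg e) he 2
  rw [frob_sq, sum_data (fun k => e k ^ 2)] at h3
  have h4 : ∑ r : Fin n, ((∑ q, ((-(matA d)ᵀ) r q - (-(matA (d + e))ᵀ) r q) ^ 2) +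
      ((-vecC d) r - (-vecC (d + e)) r) ^ 2) = (∑ i : Fin n, ∑ j : Fin m, e (Sum.inl (j, i)) ^ 2) +
        ∑ i, e (Sum.inr (Sum.inr i)) ^ 2 := by
    rw [← Finset.sum_add_distrib]
    apply Finset.sum_congr rfl
    intro r _
    simp [matA, vecC]
  rw [h4, Finset.sum_comm]
  have h5 : 0 ≤ ∑ j : Fin m, e (Sum.inr (Sum.inl j)) ^ 2 :=
    Finset.sum_nonneg fun _ _ => sq_nonneg _
  linarith

/-- The tail bound for the distance to ill-posedness. -/
theorem rho_tail (hm : 1 ≤ m) (hn : 1 ≤ n) {C₁ : Set (Fin m → ℝ)} {C₂ : Set (Fin n → ℝ)}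
    (h1 : IsClosedConvexCone C₁) (h2 : IsClosedConvexCone C₂) (a : Data m n) {σ : ℝ} (hσ : 0 < σ)
    {t : ℝ} (ht : 0 ≤ t) :
    gaussPi a σ {d | rho C₁ C₂ d < ENNReal.ofReal t} ≤
      ENNReal.ofReal (128 * ((m : ℝ) * n) ^ 2 * t / σ) := by
  have : NeZero m := ⟨by omega⟩
  have : NeZero n := ⟨by omega⟩
  have hD1 := isClosedConvexCone_dualCone C₁
  have hDD2 := isClosedConvexCone_dualCone (dualCone C₂)
  set X := {d : Data m n | (∃ z ∈ coneUp C₂, z ⬝ᵥ z = 1 ∧ ∀ y ∈ dualCone C₁, y ⬝ᵥ y = 1 →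
        -t ≤ y ⬝ᵥ (matP d).mulVec z) ∧
      (∃ y ∈ dualCone C₁, y ⬝ᵥ y = 1 ∧ ∀ x ∈ coneUp C₂, x ⬝ᵥ x = 1 →
        y ⬝ᵥ (matP d).mulVec x ≤ t)} with hX
  set Y := {d : Data m n | (∃ z ∈ coneUp (dualCone C₁), z ⬝ᵥ z = 1 ∧
        ∀ y ∈ dualCone (dualCone C₂), y ⬝ᵥ y = 1 → -t ≤ y ⬝ᵥ (matD d).mulVec z) ∧
      (∃ y ∈ dualCone (dualCone C₂), y ⬝ᵥ y = 1 ∧ ∀ x ∈ coneUp (dualCone C₁), x ⬝ᵥ x = 1 →
        y ⬝ᵥ (matD d).mulVec x ≤ t)} with hY
  have hXm := ill_measure a hσ (isClosedConvexCone_coneUp h2) hD1 continuous_matP entryMap_matP ht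
  have hYm := ill_measure a hσ (isClosedConvexCone_coneUp hD1) hDD2 continuous_matD entryMap_matD ht
  rw [← hX] at hXm
  rw [← hY] at hYm
  have hsub : {d | rho C₁ C₂ d < ENNReal.ofReal t} ⊆ X ∪ Y := by
    intro d hd
    have hns : ¬ StableUpTo C₁ C₂ d (Real.toNNReal t) := by
      intro hs
      have : (Real.toNNReal t : ℝ≥0∞) ≤ rho C₁ C₂ d := le_iSup₂_of_le _ hs le_rfl
      exact absurd hd (not_lt.2 this)
    unfold StableUpTo at hns
    push Not at hns
    obtain ⟨e, he, hne⟩ := hns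
    rw [Real.coe_toNNReal t ht] at he
    by_cases hP : PrimalFeasible C₁ C₂ (d + e) ↔ PrimalFeasible C₁ C₂ d
    · right
      have hDne : ¬ (DualFeasible C₁ C₂ (d + e) ↔ DualFeasible C₁ C₂ d) := by
        have := hne hP
        tauto
      exact dual_change ht he hDne
    · left
      exact primal_change h1 h2 ht he hP
  have hm1 : (1 : ℝ) ≤ m := by exact_mod_cast hm
  have hn1 : (1 : ℝ) ≤ n := by exact_mod_cast hn
  calc gaussPi a σ {d | rho C₁ C₂ d < ENNReal.ofReal t}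
      ≤ gaussPi a σ (X ∪ Y) := measure_mono hsub
    _ ≤ gaussPi a σ X + gaussPi a σ Y := measure_union_le _ _
    _ ≤ _ := add_le_add hXm hYm
    _ = ENNReal.ofReal (16 * ((m : ℝ) * (n + 1)) ^ 2 * t / σ +
          16 * ((n : ℝ) * (m + 1)) ^ 2 * t / σ) := by
        rw [ENNReal.ofReal_add (by positivity) (by positivity)]
        simp
    _ ≤ _ := by
        apply ENNReal.ofReal_le_ofReal
        have e1 : ((m : ℝ) * (n + 1)) ^ 2 ≤ 4 * ((m : ℝ) * n) ^ 2 := by
          have : (m : ℝ) * (n + 1) ≤ 2 * (m * n) := by nlinarith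
          calc ((m : ℝ) * (n + 1)) ^ 2 ≤ (2 * (m * n)) ^ 2 :=
                pow_le_pow_left₀ (by positivity) this 2
            _ = _ := by ring
        have e2 : ((n : ℝ) * (m + 1)) ^ 2 ≤ 4 * ((m : ℝ) * n) ^ 2 := by
          have : (n : ℝ) * (m + 1) ≤ 2 * (m * n) := by nlinarith
          calc ((n : ℝ) * (m + 1)) ^ 2 ≤ (2 * (m * n)) ^ 2 :=
                pow_le_pow_left₀ (by positivity) this 2
            _ = _ := by ring
        rw [← add_div]
        apply div_le_div_of_nonneg_right _ hσ.le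
        nlinarith [mul_le_mul_of_nonneg_right e1 ht, mul_le_mul_of_nonneg_right e2 ht]

end Pool.Agent.H836R3
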